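import Pool.Agent.Helper36.CV.StmtsR

set_option autoImplicit false

namespace Pool.Agent.Helper80.CV.R8

open Complex Filter Topology MeasureTheory Set Pool.Agent.Helper36.CV

noncomputable section

theorem r8_sqrt (s : ℝ) (hs : |s| ≤ 1 / 2) :
    |Real.sqrt (1 + s) - (1 + s / 2 - s ^ 2 / 8)| ≤ |s| ^ 3 / 7 := by
  obtain ⟨h1, h2⟩ := abs_le.1 hs
  have h0 : 0 ≤ 1 + s := by linarith
  set r := Real.sqrt (1 + s) with hr
  have hr0 : 0 ≤ r := Real.sqrt_nonneg _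
  have hr2 : r ^ 2 = 1 + s := Real.sq_sqrt h0
  have hrl : 1 / 2 ≤ r := by nlinarith
  set P := 1 + s / 2 - s ^ 2 / 8 with hP
  have hPl : 1 / 2 ≤ P := by
    rw [hP]
    nlinarith
  have hid : (r - P) * (r + P) = s ^ 3 * (1 / 8 - s / 64) := by
    have : (r - P) * (r + P) = r ^ 2 - P ^ 2 := by ring
    rw [this, hr2, hP]
    ring
  have habs : |r - P| * (r + P) = |s| ^ 3 * |1 / 8 - s / 64| := by
    have h3 : |(r - P) * (r + P)| = |s ^ 3 * (1 / 8 - s / 64)| := by rw [hid]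
    rw [abs_mul, abs_mul, abs_pow, abs_of_nonneg (by linarith : (0 : ℝ) ≤ r + P)] at h3
    exact h3
  have h4 : |1 / 8 - s / 64| ≤ 1 / 7 := by
    rw [abs_le]
    constructor <;> linarith
  have h5 : |r - P| ≤ |r - P| * (r + P) := by
    nlinarith [abs_nonneg (r - P)]
  calc |r - P| ≤ |s| ^ 3 * |1 / 8 - s / 64| := by rw [← habs]; exact h5
    _ ≤ |s| ^ 3 * (1 / 7) := mul_le_mul_of_nonneg_left h4 (by positivity)
    _ = |s| ^ 3 / 7 := by ring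

/-- the scaled remainder -/
theorem r8_rem (g k a e : ℝ) (hg0 : 0 ≤ g) (hg1 : g ≤ 1) (hk0 : 0 ≤ k) (hk1 : k ≤ 1)
    (ha : |a| ≤ 1 / 10) (he : |e| ≤ 1 / 100) :
    |2 * g * a + k * a ^ 2| ≤ 21 / 10 * |a| ∧
    |(Real.sqrt (1 + (2 * g * a + k * a ^ 2)) * (1 + e * a) -
      (1 + (g + e) * a + (k / 2 - g ^ 2 / 2 + e * g) * a ^ 2))| ≤ 2 * |a| ^ 3 := by
  set s := 2 * g * a + k * a ^ 2 with hs
  have ha0 : 0 ≤ |a| := abs_nonneg a
  have hsb : |s| ≤ 21 / 10 * |a| := by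
    calc |s| ≤ |2 * g * a| + |k * a ^ 2| := abs_add_le _ _
      _ = 2 * g * |a| + k * |a| ^ 2 := by
        rw [abs_mul, abs_mul, abs_mul, abs_of_nonneg hg0, abs_of_nonneg hk0, abs_pow]
        norm_num
      _ ≤ 2 * 1 * |a| + 1 * (|a| * (1 / 10)) := by
        have h1 : |a| ^ 2 ≤ |a| * (1 / 10) := by nlinarith
        have h2 : k * |a| ^ 2 ≤ 1 * (|a| * (1 / 10)) := by
          calc k * |a| ^ 2 ≤ 1 * |a| ^ 2 := mul_le_mul_of_nonneg_right hk1 (by positivity)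
            _ ≤ _ := by linarith
        have h3 : 2 * g * |a| ≤ 2 * 1 * |a| := by nlinarith
        linarith
      _ = 21 / 10 * |a| := by ring
  refine ⟨hsb, ?_⟩
  have hs2 : |s| ≤ 1 / 2 := by linarith
  have hA := r8_sqrt s hs2
  set r := Real.sqrt (1 + s) with hr
  have hid : r * (1 + e * a) - (1 + (g + e) * a + (k / 2 - g ^ 2 / 2 + e * g) * a ^ 2) =
      (r - (1 + s / 2 - s ^ 2 / 8)) * (1 + e * a) +
        (-(g * k / 2) * a ^ 3 - k ^ 2 / 8 * a ^ 4 + e * k / 2 * a ^ 3 - e * s ^ 2 / 8 * a) := by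
    rw [hs]
    ring
  rw [hid]
  have hea : |1 + e * a| ≤ 101 / 100 := by
    calc |1 + e * a| ≤ |(1 : ℝ)| + |e * a| := abs_add_le _ _
      _ = 1 + |e| * |a| := by rw [abs_one, abs_mul]
      _ ≤ 101 / 100 := by nlinarith [abs_nonneg e]
  have h1 : |(r - (1 + s / 2 - s ^ 2 / 8)) * (1 + e * a)| ≤ (21 / 10 * |a|) ^ 3 / 7 * (101 / 100) := by
    rw [abs_mul]
    refine mul_le_mul (le_trans hA ?_) hea (abs_nonneg _) (by positivity)
    have : |s| ^ 3 ≤ (21 / 10 * |a|) ^ 3 := pow_le_pow_left₀ (abs_nonneg s) hsb 3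
    linarith
  have h2 : |(-(g * k / 2) * a ^ 3)| ≤ 1 / 2 * |a| ^ 3 := by
    rw [abs_mul, abs_pow, abs_neg, abs_of_nonneg (by positivity : (0 : ℝ) ≤ g * k / 2)]
    refine mul_le_mul_of_nonneg_right ?_ (by positivity)
    nlinarith
  have h3 : |k ^ 2 / 8 * a ^ 4| ≤ 1 / 80 * |a| ^ 3 := by
    rw [abs_mul, abs_pow, abs_of_nonneg (by positivity : (0 : ℝ) ≤ k ^ 2 / 8)]
    have h4 : k ^ 2 / 8 ≤ 1 / 8 := by nlinarith
    have h5 : |a| ^ 4 ≤ |a| ^ 3 * (1 / 10) := by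
      have : |a| ^ 4 = |a| ^ 3 * |a| := by ring
      rw [this]
      exact mul_le_mul_of_nonneg_left ha (by positivity)
    calc k ^ 2 / 8 * |a| ^ 4 ≤ 1 / 8 * (|a| ^ 3 * (1 / 10)) :=
          mul_le_mul h4 h5 (by positivity) (by norm_num)
      _ = 1 / 80 * |a| ^ 3 := by ring
  have h4 : |e * k / 2 * a ^ 3| ≤ 1 / 200 * |a| ^ 3 := by
    rw [abs_mul, abs_pow, abs_div, abs_mul, abs_of_nonneg hk0, abs_of_nonneg (by norm_num : (0 : ℝ) ≤ 2)]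
    refine mul_le_mul_of_nonneg_right ?_ (by positivity)
    nlinarith [abs_nonneg e]
  have h5 : |e * s ^ 2 / 8 * a| ≤ 1 / 100 * |a| ^ 3 := by
    rw [abs_mul, abs_div, abs_mul, abs_pow, abs_of_nonneg (by norm_num : (0 : ℝ) ≤ 8)]
    have h6 : |s| ^ 2 ≤ (21 / 10 * |a|) ^ 2 := pow_le_pow_left₀ (abs_nonneg s) hsb 2
    have h7 : |e| * |s| ^ 2 ≤ 1 / 100 * (21 / 10 * |a|) ^ 2 :=
      mul_le_mul he h6 (by positivity) (by norm_num)
    calc |e| * |s| ^ 2 / 8 * |a| ≤ 1 / 100 * (21 / 10 * |a|) ^ 2 / 8 * |a| := by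
          refine mul_le_mul_of_nonneg_right ?_ ha0
          linarith
      _ ≤ 1 / 100 * |a| ^ 3 := by
          have : 1 / 100 * (21 / 10 * |a|) ^ 2 / 8 * |a| = 441 / 80000 * |a| ^ 3 := by ring
          rw [this]
          have := pow_nonneg ha0 3
          linarith
  have h6 : |(-(g * k / 2) * a ^ 3 - k ^ 2 / 8 * a ^ 4 + e * k / 2 * a ^ 3 - e * s ^ 2 / 8 * a)| ≤
      1 / 2 * |a| ^ 3 + 1 / 80 * |a| ^ 3 + 1 / 200 * |a| ^ 3 + 1 / 100 * |a| ^ 3 := by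
    refine le_trans (abs_sub _ _) ?_
    refine add_le_add ?_ h5
    refine le_trans (abs_add_le _ _) ?_
    refine add_le_add ?_ h4
    refine le_trans (abs_sub _ _) ?_
    exact add_le_add h2 h3
  refine le_trans (abs_add_le _ _) ?_
  refine le_trans (add_le_add h1 h6) ?_
  have h7 : (21 / 10 * |a|) ^ 3 / 7 * (101 / 100) = 935361 / 700000 * |a| ^ 3 := by ring
  rw [h7]
  have := pow_nonneg ha0 3
  nlinarith

/-- basic facts on the scaled variables -/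
theorem r8_basic (τ h Q D X ρ : ℝ) (hD : 0 < D) (hh : 0 ≤ h) (hτ : τ = D + h)
    (hQ : Q = Real.sqrt (τ ^ 2 - h ^ 2)) (_hρ : 0 < ρ) (hρD : ρ ≤ D / 100) (hX : |X| ≤ 3 / 5 * ρ) :
    0 < Q ∧ Q ^ 2 = τ ^ 2 - h ^ 2 ∧ 0 ≤ τ * D / Q ^ 2 ∧ τ * D / Q ^ 2 ≤ 1 ∧ 0 ≤ D ^ 2 / Q ^ 2 ∧
    D ^ 2 / Q ^ 2 ≤ 1 ∧ Q ^ 2 ≤ 2 * τ * D ∧ |X / D| ≤ 3 / 5 * (ρ / D) ∧ |X / D| ≤ 1 / 10 ∧
    Real.sqrt ((τ + X) ^ 2 - h ^ 2) =
      Q * Real.sqrt (1 + (2 * (τ * D / Q ^ 2) * (X / D) + D ^ 2 / Q ^ 2 * (X / D) ^ 2)) := by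
  have h1 : τ ^ 2 - h ^ 2 = D * (D + 2 * h) := by rw [hτ]; ring
  have h2 : 0 < τ ^ 2 - h ^ 2 := by rw [h1]; positivity
  have hQ0 : 0 < Q := by rw [hQ]; exact Real.sqrt_pos.2 h2
  have hQ2 : Q ^ 2 = τ ^ 2 - h ^ 2 := by rw [hQ]; exact Real.sq_sqrt h2.le
  have hQ2p : 0 < Q ^ 2 := by positivity
  have hτ0 : 0 < τ := by rw [hτ]; positivity
  have h3 : τ * D ≤ Q ^ 2 := by rw [hQ2, h1, hτ]; nlinarith
  have h4 : D ^ 2 ≤ Q ^ 2 := by rw [hQ2, h1]; nlinarith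
  have h5 : Q ^ 2 ≤ 2 * τ * D := by rw [hQ2, h1, hτ]; nlinarith
  have h6 : |X / D| ≤ 3 / 5 * (ρ / D) := by
    rw [abs_div, abs_of_pos hD]
    calc |X| / D ≤ 3 / 5 * ρ / D := by gcongr
      _ = 3 / 5 * (ρ / D) := by ring
  have h7 : ρ / D ≤ 1 / 100 := by
    rw [div_le_iff₀ hD]
    linarith
  refine ⟨hQ0, hQ2, by positivity, (div_le_one hQ2p).2 h3, by positivity, (div_le_one hQ2p).2 h4,
    h5, h6, by linarith, ?_⟩
  have h8 : (τ + X) ^ 2 - h ^ 2 =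
      Q ^ 2 * (1 + (2 * (τ * D / Q ^ 2) * (X / D) + D ^ 2 / Q ^ 2 * (X / D) ^ 2)) := by
    have h9 : Q ^ 2 * (1 + (2 * (τ * D / Q ^ 2) * (X / D) + D ^ 2 / Q ^ 2 * (X / D) ^ 2)) =
        Q ^ 2 + 2 * τ * X + X ^ 2 := by
      field_simp
      ring
    rw [h9, hQ2]
    ring
  rw [h8, Real.sqrt_mul (by positivity), Real.sqrt_sq hQ0.le]

theorem r8_tay (τ h Q D X ρ c : ℝ) (hD : 0 < D) (hh : 0 ≤ h) (hτ : τ = D + h)
    (hQ : Q = Real.sqrt (τ ^ 2 - h ^ 2)) (hρ : 0 < ρ) (hρD : ρ ≤ D / 100) (hX : |X| ≤ 3 / 5 * ρ)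
    (hc : |c| * D ≤ 1 / 100) :
    |Real.sqrt ((τ + X) ^ 2 - h ^ 2) * (1 + c * X) -
      (Q + (τ / Q + c * Q) * X + (-(h ^ 2 / (2 * Q ^ 3)) + c * τ / Q) * X ^ 2)| ≤
      4 * (ρ / D) ^ 2 * (τ / Q) * ρ := by
  obtain ⟨hQ0, hQ2, hg0, hg1, hk0, hk1, hQu, hX1, hX2, hsq⟩ := r8_basic τ h Q D X ρ hD hh hτ hQ hρ hρD hX
  have he : |c * D| ≤ 1 / 100 := by rw [abs_mul, abs_of_pos hD]; exact hc
  obtain ⟨_, hrem⟩ := r8_rem (τ * D / Q ^ 2) (D ^ 2 / Q ^ 2) (X / D) (c * D) hg0 hg1 hk0 hk1 hX2 he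
  have hτ0 : 0 < τ := by rw [hτ]; positivity
  rw [hsq]
  have hh2 : h ^ 2 = τ ^ 2 - Q ^ 2 := by rw [hQ2]; ring
  have hid : Q * Real.sqrt (1 + (2 * (τ * D / Q ^ 2) * (X / D) + D ^ 2 / Q ^ 2 * (X / D) ^ 2)) * (1 + c * X) -
      (Q + (τ / Q + c * Q) * X + (-(h ^ 2 / (2 * Q ^ 3)) + c * τ / Q) * X ^ 2) =
      Q * (Real.sqrt (1 + (2 * (τ * D / Q ^ 2) * (X / D) + D ^ 2 / Q ^ 2 * (X / D) ^ 2)) * (1 + c * D * (X / D)) -
      (1 + (τ * D / Q ^ 2 + c * D) * (X / D) +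
        (D ^ 2 / Q ^ 2 / 2 - (τ * D / Q ^ 2) ^ 2 / 2 + c * D * (τ * D / Q ^ 2)) * (X / D) ^ 2)) := by
    generalize Real.sqrt (1 + (2 * (τ * D / Q ^ 2) * (X / D) + D ^ 2 / Q ^ 2 * (X / D) ^ 2)) = r
    rw [hh2]
    field_simp
    ring
  rw [hid, abs_mul, abs_of_pos hQ0]
  have h1 : |X / D| ^ 3 ≤ (3 / 5 * (ρ / D)) ^ 3 := pow_le_pow_left₀ (abs_nonneg _) hX1 3
  calc Q * _ ≤ Q * (2 * |X / D| ^ 3) := mul_le_mul_of_nonneg_left hrem hQ0.le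
    _ ≤ Q * (2 * (3 / 5 * (ρ / D)) ^ 3) := by
        refine mul_le_mul_of_nonneg_left ?_ hQ0.le
        linarith
    _ = (Q ^ 2 / D) * (54 / 125 * (ρ / D) ^ 2 * ρ / Q) := by
        field_simp
        ring
    _ ≤ (2 * τ) * (54 / 125 * (ρ / D) ^ 2 * ρ / Q) := by
        refine mul_le_mul_of_nonneg_right ?_ (by positivity)
        rw [div_le_iff₀ hD]
        exact hQu
    _ = 108 / 125 * ((ρ / D) ^ 2 * (τ / Q) * ρ) := by ring
    _ ≤ 4 * (ρ / D) ^ 2 * (τ / Q) * ρ := by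
        have : 0 ≤ (ρ / D) ^ 2 * (τ / Q) * ρ := by positivity
        linarith

theorem r8_der (τ h Q D X ρ c ε : ℝ) (hD : 0 < D) (hh : 0 ≤ h) (hτ : τ = D + h)
    (hQ : Q = Real.sqrt (τ ^ 2 - h ^ 2)) (hρ : 0 < ρ) (hρD : ρ ≤ D / 100) (hX : |X| ≤ 3 / 5 * ρ)
    (hc : |c| * D ≤ 1 / 100) (hε : 0 < ε) (hε1 : ε ≤ 1 / 100) (hκ : ρ * h ^ 2 ≤ 8 * ε * τ * Q ^ 2)
    (hcρ : |c| * ρ ≤ ε / 100) (hδ : (ρ / D) ^ 2 ≤ ε / 100) :
    (τ / Q + c * Q) * (1 - 10 * ε) ≤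
      (τ + X) / Real.sqrt ((τ + X) ^ 2 - h ^ 2) * (1 + c * X) +
        Real.sqrt ((τ + X) ^ 2 - h ^ 2) * c := by
  obtain ⟨hQ0, hQ2, hg0, hg1, hk0, hk1, hQu, hX1, hX2, hsq⟩ := r8_basic τ h Q D X ρ hD hh hτ hQ hρ hρD hX
  have he : |c * D| ≤ 1 / 100 := by rw [abs_mul, abs_of_pos hD]; exact hc
  obtain ⟨hs1, _⟩ := r8_rem (τ * D / Q ^ 2) (D ^ 2 / Q ^ 2) (X / D) (c * D) hg0 hg1 hk0 hk1 hX2 he
  have hτ0 : 0 < τ := by rw [hτ]; positivity
  have hτD : D ≤ τ := by rw [hτ]; linarith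
  rw [hsq]
  set s := 2 * (τ * D / Q ^ 2) * (X / D) + D ^ 2 / Q ^ 2 * (X / D) ^ 2 with hs
  have hXD0 : 0 ≤ |X / D| := abs_nonneg _
  have hsb : |s| ≤ 21 / 100 := by linarith
  obtain ⟨hsl, hsu⟩ := abs_le.1 hsb
  set r := Real.sqrt (1 + s) with hr
  have hr2 : r ^ 2 = 1 + s := Real.sq_sqrt (by linarith)
  have hr0 : 0 < r := Real.sqrt_pos.2 (by linarith)
  have hsX : s = 2 * (X * τ / Q ^ 2) + X ^ 2 / Q ^ 2 := by
    rw [hs]
    field_simp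
  set m := Q ^ 2 / τ with hm
  have hm0 : 0 < m := by positivity
  have hm2 : m ≤ 2 * D := by
    rw [hm, div_le_iff₀ hτ0]
    linarith
  -- reduction to the scaled inequality
  have key : (1 + c * m) * (1 - 10 * ε) ≤ (1 + X / τ) * (1 + c * X) / r + c * m * r := by
    have hrs : r ≤ 1 + s / 2 := by
      rw [hr]
      refine Real.sqrt_le_iff.2 ⟨by linarith, ?_⟩
      have h9 : (1 + s / 2) ^ 2 = 1 + s + s ^ 2 / 4 := by ring
      rw [h9]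
      linarith only [sq_nonneg s]
    have hinv : (1 - s / 2) ≤ 1 / r := by
      rw [le_div_iff₀ hr0]
      have : (1 - s / 2) * r ≤ (1 - s / 2) * (1 + s / 2) :=
        mul_le_mul_of_nonneg_left hrs (by linarith)
      have h9 : (1 - s / 2) * (1 + s / 2) = 1 - s ^ 2 / 4 := by ring
      linarith only [sq_nonneg s, h9, this]
    have hr1 : |r - 1| ≤ |s| := by
      have h1 : |r - 1| * (r + 1) = |s| := by
        have h2 : (r - 1) * (r + 1) = s := by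
          have : (r - 1) * (r + 1) = r ^ 2 - 1 := by ring
          rw [this, hr2]
          ring
        rw [← h2, abs_mul, abs_of_pos (by linarith : 0 < r + 1)]
      rw [← h1]
      exact le_mul_of_one_le_right (abs_nonneg _) (by linarith only [hr0])
    have hcX : |c * X| ≤ 6 / 1000 * ε := by
      rw [abs_mul]
      calc |c| * |X| ≤ |c| * (3 / 5 * ρ) := mul_le_mul_of_nonneg_left hX (abs_nonneg c)
        _ = 3 / 5 * (|c| * ρ) := by ring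
        _ ≤ 6 / 1000 * ε := by linarith
    obtain ⟨hcX1, hcX2⟩ := abs_le.1 hcX
    have hcm : |c * m| ≤ 1 / 50 := by
      rw [abs_mul, abs_of_pos hm0]
      calc |c| * m ≤ |c| * (2 * D) := mul_le_mul_of_nonneg_left hm2 (abs_nonneg c)
        _ = 2 * (|c| * D) := by ring
        _ ≤ 1 / 50 := by linarith
    obtain ⟨hcm1, hcm2⟩ := abs_le.1 hcm
    have hcmr : |c * m * (r - 1)| ≤ 3 / 100 * ε := by
      rw [abs_mul, abs_mul, abs_of_pos hm0]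
      calc |c| * m * |r - 1| ≤ |c| * (2 * D) * (21 / 10 * |X / D|) := by
            refine mul_le_mul ?_ (le_trans hr1 hs1) (abs_nonneg _) (by positivity)
            exact mul_le_mul_of_nonneg_left hm2 (abs_nonneg c)
        _ ≤ |c| * (2 * D) * (21 / 10 * (3 / 5 * (ρ / D))) := by
            refine mul_le_mul_of_nonneg_left ?_ (by positivity)
            linarith
        _ = 63 / 25 * (|c| * ρ) := by
            field_simp
            ring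
        _ ≤ 3 / 100 * ε := by linarith
    obtain ⟨hcmr1, hcmr2⟩ := abs_le.1 hcmr
    have hXh : |X * h ^ 2 / (τ * Q ^ 2)| ≤ 24 / 5 * ε := by
      rw [abs_div, abs_mul, abs_of_pos (by positivity : 0 < τ * Q ^ 2), abs_of_nonneg (by positivity : (0 : ℝ) ≤ h ^ 2),
        div_le_iff₀ (by positivity)]
      calc |X| * h ^ 2 ≤ 3 / 5 * ρ * h ^ 2 := mul_le_mul_of_nonneg_right hX (by positivity)
        _ = 3 / 5 * (ρ * h ^ 2) := by ring
        _ ≤ 3 / 5 * (8 * ε * τ * Q ^ 2) := by linarith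
        _ = 24 / 5 * ε * (τ * Q ^ 2) := by ring
    obtain ⟨hXh1, hXh2⟩ := abs_le.1 hXh
    have hXQ : X ^ 2 / Q ^ 2 ≤ ε / 100 := by
      have h1 : D ^ 2 ≤ Q ^ 2 := by
        have := (div_le_one (by positivity : 0 < Q ^ 2)).1 hk1
        exact this
      calc X ^ 2 / Q ^ 2 ≤ X ^ 2 / D ^ 2 := by
            exact div_le_div_of_nonneg_left (by positivity) (by positivity) h1
        _ = |X / D| ^ 2 := by rw [sq_abs]; ring
        _ ≤ (3 / 5 * (ρ / D)) ^ 2 := pow_le_pow_left₀ hXD0 hX1 2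
        _ = 9 / 25 * (ρ / D) ^ 2 := by ring
        _ ≤ ε / 100 := by
            have : 0 ≤ (ρ / D) ^ 2 := by positivity
            linarith
    have hXs : |X / τ * (s / 2)| ≤ ε / 100 := by
      have h1 : |X / τ| ≤ |X / D| := by
        rw [abs_div, abs_div, abs_of_pos hτ0, abs_of_pos hD]
        exact div_le_div_of_nonneg_left (abs_nonneg X) hD hτD
      rw [abs_mul, abs_div s 2, abs_of_pos (by norm_num : (0 : ℝ) < 2)]
      calc |X / τ| * (|s| / 2) ≤ |X / D| * (21 / 10 * |X / D| / 2) := by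
            refine mul_le_mul h1 ?_ (by positivity) hXD0
            linarith
        _ = 21 / 20 * |X / D| ^ 2 := by ring
        _ ≤ 21 / 20 * (3 / 5 * (ρ / D)) ^ 2 := by
            have := pow_le_pow_left₀ hXD0 hX1 2
            linarith
        _ = 189 / 500 * (ρ / D) ^ 2 := by ring
        _ ≤ ε / 100 := by
            have : 0 ≤ (ρ / D) ^ 2 := by positivity
            linarith
    obtain ⟨hXs1, hXs2⟩ := abs_le.1 hXs
    have hA : 1 - 49 / 10 * ε ≤ (1 + X / τ) * (1 - s / 2) := by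
      have h1 : (1 + X / τ) * (1 - s / 2) = 1 - X * h ^ 2 / (τ * Q ^ 2) - X ^ 2 / Q ^ 2 / 2 - X / τ * (s / 2) := by
        have h2 : X / τ - X * τ / Q ^ 2 = -(X * h ^ 2 / (τ * Q ^ 2)) := by
          have hh2 : h ^ 2 = τ ^ 2 - Q ^ 2 := by rw [hQ2]; ring
          rw [hh2]
          field_simp
          ring
        have h3 : (1 + X / τ) * (1 - s / 2) = 1 + X / τ - s / 2 - X / τ * (s / 2) := by ring
        rw [h3]
        have h4 : X / τ - s / 2 = -(X * h ^ 2 / (τ * Q ^ 2)) - X ^ 2 / Q ^ 2 / 2 := by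
          rw [← h2, hsX]
          ring
        linarith
      rw [h1]
      linarith
    have hB : 1 - 6 / 1000 * ε ≤ 1 + c * X := by linarith
    have hAB : 1 - 5 * ε ≤ (1 + X / τ) * (1 - s / 2) * (1 + c * X) := by
      have h1 : (1 - 49 / 10 * ε) * (1 - 6 / 1000 * ε) ≤ (1 + X / τ) * (1 - s / 2) * (1 + c * X) :=
        mul_le_mul hA hB (by linarith only [hε1, hε]) (by linarith only [hA, hε1, hε])
      have h9 : (1 - 49 / 10 * ε) * (1 - 6 / 1000 * ε) = 1 - 4906 / 1000 * ε + 294 / 10000 * ε ^ 2 := by ring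
      linarith only [h1, h9, sq_nonneg ε, hε]
    have hXτ : 0 ≤ 1 + X / τ := by
      have h1 : |X / τ| ≤ |X / D| := by
        rw [abs_div, abs_div, abs_of_pos hτ0, abs_of_pos hD]
        exact div_le_div_of_nonneg_left (abs_nonneg X) hD hτD
      have h2 := (abs_le.1 (le_trans h1 hX2)).1
      linarith
    have hC : (1 + X / τ) * (1 - s / 2) * (1 + c * X) ≤ (1 + X / τ) * (1 + c * X) / r := by
      have h1 : (1 + X / τ) * (1 + c * X) / r = (1 + X / τ) * (1 + c * X) * (1 / r) := by ring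
      rw [h1]
      have h2 : (1 + X / τ) * (1 - s / 2) * (1 + c * X) = (1 + X / τ) * (1 + c * X) * (1 - s / 2) := by ring
      rw [h2]
      exact mul_le_mul_of_nonneg_left hinv (mul_nonneg hXτ (by linarith))
    have hE : (1 + c * m) * (1 - 10 * ε) ≤ 1 + c * m - 98 / 10 * ε := by
      have h8 := mul_le_mul_of_nonneg_left hcm1 hε.le
      have h9 : (1 + c * m) * (1 - 10 * ε) = 1 + c * m - 10 * ε - 10 * (ε * (c * m)) := by ring
      linarith only [h8, h9]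
    have hF : c * m * r = c * m + c * m * (r - 1) := by ring
    rw [hF]
    linarith only [hAB, hC, hE, hcmr1, hε]
  have hfin1 : (τ / Q + c * Q) * (1 - 10 * ε) = τ / Q * ((1 + c * m) * (1 - 10 * ε)) := by
    rw [hm]
    field_simp
  have hfin2 : (τ + X) / (Q * r) * (1 + c * X) + Q * r * c =
      τ / Q * ((1 + X / τ) * (1 + c * X) / r + c * m * r) := by
    rw [hm]
    field_simp
  rw [hfin1, hfin2]
  exact mul_le_mul_of_nonneg_left key (by positivity)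

theorem r8_pw (ε C a b : ℝ) (hε : 0 < ε) (hε1 : ε ≤ 1) (hC : 0 ≤ C) (hS : C * ε ^ (1 / 100 : ℝ) ≤ 1)
    (hab : a + 1 / 100 ≤ b) : C * ε ^ b ≤ ε ^ a := by
  have h1 : ε ^ b ≤ ε ^ (a + 1 / 100) := Real.rpow_le_rpow_of_exponent_ge hε hε1 hab
  rw [Real.rpow_add hε] at h1
  have h2 : 0 < ε ^ a := Real.rpow_pos_of_pos hε a
  calc C * ε ^ b ≤ C * (ε ^ a * ε ^ (1 / 100 : ℝ)) := mul_le_mul_of_nonneg_left h1 hC
    _ = ε ^ a * (C * ε ^ (1 / 100 : ℝ)) := by ring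
    _ ≤ ε ^ a * 1 := mul_le_mul_of_nonneg_left hS h2.le
    _ = ε ^ a := mul_one _

theorem r8_eps (C : ℝ) (hC : 1 ≤ C) : ∃ ε0 : ℝ, 0 < ε0 ∧ ε0 ≤ 1 / 100 ∧
    ∀ ε : ℝ, 0 < ε → ε ≤ ε0 → C * ε ^ (1 / 100 : ℝ) ≤ 1 := by
  have hC0 : 0 < C := by linarith
  refine ⟨min (1 / 100) ((1 / C) ^ 100), by positivity, min_le_left _ _, ?_⟩
  intro ε hε hle
  have h1 : ε ≤ (1 / C) ^ 100 := le_trans hle (min_le_right _ _)
  have h2 : ε ^ (1 / 100 : ℝ) ≤ ((1 / C) ^ 100) ^ (1 / 100 : ℝ) :=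
    Real.rpow_le_rpow hε.le h1 (by norm_num)
  have h3 : ((1 / C) ^ 100) ^ (1 / 100 : ℝ) = 1 / C := by
    have h4 := Real.pow_rpow_inv_natCast (x := 1 / C) (n := 100) (by positivity) (by norm_num)
    have h5 : ((100 : ℕ) : ℝ)⁻¹ = (1 / 100 : ℝ) := by norm_num
    rw [h5] at h4
    exact h4
  rw [h3] at h2
  calc C * ε ^ (1 / 100 : ℝ) ≤ C * (1 / C) := mul_le_mul_of_nonneg_left h2 hC0.le
    _ = 1 := by field_simp

theorem r8_k2 (τ h Q D ρ c ε K : ℝ) (_hD : 0 < D) (hτ0 : 0 < τ) (hQ0 : 0 < Q)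
    (hQu : Q ^ 2 ≤ 2 * τ * D) (hρ : 0 < ρ) (hK : 1 ≤ K)
    (hε : 0 < ε) (hε1 : ε ≤ 1 / 100) (hS : 1000 * K * ε ^ (1 / 100 : ℝ) ≤ 1)
    (hκ : ρ * h ^ 2 ≤ 8 * ε * τ * Q ^ 2)
    (hcρ : |c| * ρ ≤ ε ^ (114 / 100 : ℝ)) (hcD : |c| * D ≤ ε ^ (9 / 100 : ℝ)) :
    0 < 1 + c * (Q ^ 2 / τ) ∧
    |ρ * (-(h ^ 2 / (Q ^ 2 * τ)) + 2 * c) / (1 + c * (Q ^ 2 / τ))| ≤ 8 * ε + ε ^ (102 / 100 : ℝ) := by
  have hε1' : ε ≤ 1 := by linarith
  have hKC : (0 : ℝ) ≤ 1000 * K := by linarith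
  have hm2 : Q ^ 2 / τ ≤ 2 * D := by
    rw [div_le_iff₀ hτ0]
    linarith
  have hm0 : 0 < Q ^ 2 / τ := by positivity
  have hcm : |c * (Q ^ 2 / τ)| ≤ 2 * ε ^ (9 / 100 : ℝ) := by
    rw [abs_mul, abs_of_pos hm0]
    calc |c| * (Q ^ 2 / τ) ≤ |c| * (2 * D) := mul_le_mul_of_nonneg_left hm2 (abs_nonneg c)
      _ = 2 * (|c| * D) := by ring
      _ ≤ 2 * ε ^ (9 / 100 : ℝ) := by linarith
  have hp9 : 1000 * K * ε ^ (9 / 100 : ℝ) ≤ ε ^ (0 : ℝ) := r8_pw ε (1000 * K) 0 (9 / 100) hε hε1' hKC hS (by norm_num)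
  rw [Real.rpow_zero] at hp9
  have hq9 : 0 < ε ^ (9 / 100 : ℝ) := Real.rpow_pos_of_pos hε _
  have hK1 : 1000 * ε ^ (9 / 100 : ℝ) ≤ 1 := by nlinarith
  have h114 : 1000 * K * ε ^ (114 / 100 : ℝ) ≤ ε ^ (102 / 100 : ℝ) :=
    r8_pw ε (1000 * K) (102 / 100) (114 / 100) hε hε1' hKC hS (by norm_num)
  have h109 : 1000 * K * ε ^ (109 / 100 : ℝ) ≤ ε ^ (102 / 100 : ℝ) :=
    r8_pw ε (1000 * K) (102 / 100) (109 / 100) hε hε1' hKC hS (by norm_num)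
  have h111 : 1000 * K * ε ^ (111 / 100 : ℝ) ≤ ε ^ (102 / 100 : ℝ) :=
    r8_pw ε (1000 * K) (102 / 100) (111 / 100) hε hε1' hKC hS (by norm_num)
  have hq114 : 0 < ε ^ (114 / 100 : ℝ) := Real.rpow_pos_of_pos hε _
  have hq109 : 0 < ε ^ (109 / 100 : ℝ) := Real.rpow_pos_of_pos hε _
  have hq111 : 0 < ε ^ (111 / 100 : ℝ) := Real.rpow_pos_of_pos hε _
  have hq102 : 0 < ε ^ (102 / 100 : ℝ) := Real.rpow_pos_of_pos hε _
  have he109 : ε * ε ^ (9 / 100 : ℝ) = ε ^ (109 / 100 : ℝ) := by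
    have h1 : ε * ε ^ (9 / 100 : ℝ) = ε ^ (1 : ℝ) * ε ^ (9 / 100 : ℝ) := by rw [Real.rpow_one]
    rw [h1, ← Real.rpow_add hε]
    norm_num
  have he111 : ε ^ (102 / 100 : ℝ) * ε ^ (9 / 100 : ℝ) = ε ^ (111 / 100 : ℝ) := by
    rw [← Real.rpow_add hε]
    norm_num
  have h114' : 1000 * ε ^ (114 / 100 : ℝ) ≤ ε ^ (102 / 100 : ℝ) := by nlinarith
  have h109' : 1000 * ε ^ (109 / 100 : ℝ) ≤ ε ^ (102 / 100 : ℝ) := by nlinarith
  have h111' : 1000 * ε ^ (111 / 100 : ℝ) ≤ ε ^ (102 / 100 : ℝ) := by nlinarith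
  obtain ⟨hcm1, hcm2⟩ := abs_le.1 hcm
  have hden : 1 - 2 * ε ^ (9 / 100 : ℝ) ≤ 1 + c * (Q ^ 2 / τ) := by linarith only [hcm1]
  have hden0 : 0 < 1 - 2 * ε ^ (9 / 100 : ℝ) := by linarith only [hK1, hq9]
  have hpos : 0 < 1 + c * (Q ^ 2 / τ) := by linarith only [hden, hden0]
  refine ⟨hpos, ?_⟩
  rw [abs_div, abs_of_pos hpos, div_le_iff₀ hpos]
  have hκ' : ρ * (h ^ 2 / (Q ^ 2 * τ)) ≤ 8 * ε := by
    rw [← mul_div_assoc, div_le_iff₀ (by positivity)]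
    linarith only [hκ]
  have hκ0 : 0 ≤ ρ * (h ^ 2 / (Q ^ 2 * τ)) := by positivity
  have hnum : |ρ * (-(h ^ 2 / (Q ^ 2 * τ)) + 2 * c)| ≤ 8 * ε + 2 * ε ^ (114 / 100 : ℝ) := by
    have h1 : ρ * (-(h ^ 2 / (Q ^ 2 * τ)) + 2 * c) = -(ρ * (h ^ 2 / (Q ^ 2 * τ))) + 2 * (c * ρ) := by ring
    rw [h1]
    refine le_trans (abs_add_le _ _) ?_
    rw [abs_neg, abs_of_nonneg hκ0, abs_mul, abs_mul, abs_of_pos hρ, abs_of_pos (by norm_num : (0 : ℝ) < 2)]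
    linarith only [hκ', hcρ]
  calc _ ≤ 8 * ε + 2 * ε ^ (114 / 100 : ℝ) := hnum
    _ ≤ (8 * ε + ε ^ (102 / 100 : ℝ)) * (1 - 2 * ε ^ (9 / 100 : ℝ)) := by
        have h1 : (8 * ε + ε ^ (102 / 100 : ℝ)) * (1 - 2 * ε ^ (9 / 100 : ℝ)) =
            8 * ε + ε ^ (102 / 100 : ℝ) - 16 * (ε * ε ^ (9 / 100 : ℝ)) -
              2 * (ε ^ (102 / 100 : ℝ) * ε ^ (9 / 100 : ℝ)) := by ring
        rw [h1, he109, he111]
        linarith only [h114', h109', h111', hq114, hq109, hq111, hq102]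
    _ ≤ (8 * ε + ε ^ (102 / 100 : ℝ)) * (1 + c * (Q ^ 2 / τ)) := by
        refine mul_le_mul_of_nonneg_left hden (by positivity)

/-- the exponents of the error terms -/
theorem r8_err (ε ρ D R : ℝ) (hε : 0 < ε) (hε1 : ε ≤ 1) (hρ : 0 < ρ) (hD : 0 < D) (hR : 0 < R)
    (hδ : ρ ≤ ε ^ (9 / 10 : ℝ) * D) (hDR : D ≤ ε ^ (3 / 10 : ℝ) * R) :
    ρ / R * (R / D) ^ (1 / 10 : ℝ) ≤ ε ^ (115 / 100 : ℝ) ∧ eB ε ρ D R ≤ 2 * ε ^ (117 / 100 : ℝ) := by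
  have hu0 : 0 < R / D := by positivity
  have hv0 : 0 < ε ^ (-(3 / 10) : ℝ) := Real.rpow_pos_of_pos hε _
  have hu : ε ^ (-(3 / 10) : ℝ) ≤ R / D := by
    rw [le_div_iff₀ hD, Real.rpow_neg hε.le, inv_mul_le_iff₀ (Real.rpow_pos_of_pos hε _)]
    exact hDR
  have hδ' : ρ / D ≤ ε ^ (9 / 10 : ℝ) := by
    rw [div_le_iff₀ hD]
    exact hδ
  have hδ0 : 0 < ρ / D := by positivity
  have h1 : ρ / R * (R / D) ^ (1 / 10 : ℝ) = ρ / D * (R / D) ^ (-(9 / 10) : ℝ) := by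
    have h2 : (R / D) ^ (-(9 / 10) : ℝ) = (R / D)⁻¹ * (R / D) ^ (1 / 10 : ℝ) := by
      rw [← Real.rpow_neg_one, ← Real.rpow_add hu0]
      norm_num
    rw [h2]
    field_simp
  have h3 : (R / D) ^ (-(9 / 10) : ℝ) ≤ ε ^ (27 / 100 : ℝ) := by
    have h4 := Real.rpow_le_rpow_of_nonpos hv0 hu (by norm_num : (-(9 / 10) : ℝ) ≤ 0)
    rw [← Real.rpow_mul hε.le] at h4
    norm_num at h4 ⊢
    exact h4
  have h5 : ρ * D / R ^ 2 * (R / D) ^ (1 / 10 : ℝ) = ρ / D * (R / D) ^ (-(19 / 10) : ℝ) := by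
    have h2 : (R / D) ^ (-(19 / 10) : ℝ) = ((R / D) ^ 2)⁻¹ * (R / D) ^ (1 / 10 : ℝ) := by
      have h6 : ((R / D) ^ 2)⁻¹ = (R / D) ^ (-2 : ℝ) := by
        rw [Real.rpow_neg hu0.le]
        norm_num
      rw [h6, ← Real.rpow_add hu0]
      norm_num
    rw [h2]
    field_simp
  have h7 : (R / D) ^ (-(19 / 10) : ℝ) ≤ ε ^ (57 / 100 : ℝ) := by
    have h4 := Real.rpow_le_rpow_of_nonpos hv0 hu (by norm_num : (-(19 / 10) : ℝ) ≤ 0)
    rw [← Real.rpow_mul hε.le] at h4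
    norm_num at h4 ⊢
    exact h4
  have h8 : ε ^ (9 / 10 : ℝ) * ε ^ (27 / 100 : ℝ) = ε ^ (117 / 100 : ℝ) := by
    rw [← Real.rpow_add hε]
    norm_num
  have h9 : ε ^ (9 / 10 : ℝ) * ε ^ (57 / 100 : ℝ) = ε ^ (147 / 100 : ℝ) := by
    rw [← Real.rpow_add hε]
    norm_num
  constructor
  · rw [h1]
    calc ρ / D * (R / D) ^ (-(9 / 10) : ℝ) ≤ ε ^ (9 / 10 : ℝ) * ε ^ (27 / 100 : ℝ) :=
          mul_le_mul hδ' h3 (Real.rpow_pos_of_pos hu0 _).le (Real.rpow_pos_of_pos hε _).le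
      _ = ε ^ (117 / 100 : ℝ) := h8
      _ ≤ ε ^ (115 / 100 : ℝ) := Real.rpow_le_rpow_of_exponent_ge hε hε1 (by norm_num)
  · unfold eB
    rw [h5]
    have h10 : ρ / D * (R / D) ^ (-(19 / 10) : ℝ) ≤ ε ^ (117 / 100 : ℝ) := by
      calc ρ / D * (R / D) ^ (-(19 / 10) : ℝ) ≤ ε ^ (9 / 10 : ℝ) * ε ^ (57 / 100 : ℝ) :=
            mul_le_mul hδ' h7 (Real.rpow_pos_of_pos hu0 _).le (Real.rpow_pos_of_pos hε _).le
        _ = ε ^ (147 / 100 : ℝ) := h9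
        _ ≤ ε ^ (117 / 100 : ℝ) := Real.rpow_le_rpow_of_exponent_ge hε hε1 (by norm_num)
    linarith only [h10]

theorem r8_nn {Hm Hp : ℝ} {C : Set ℝ} {cd : CD Hm Hp C} (hP2 : ST_P2) (hHm : 0 < Hm) (x ρ : ℝ)
    (V : Gap cd) : 0 ≤ nn x ρ V := by
  obtain ⟨h1, _⟩ := hP2 Hm Hp C cd hHm
  unfold nn
  refine setIntegral_nonneg measurableSet_Icc ?_
  intro t _
  exact div_nonneg (h1 t).1 (abs_nonneg _)

theorem st_R8 (hP2 : ST_P2) (hQ10 : ST_Q10) (hR3 : ST_R3) (hR6 : ST_R6) : ST_R8 := by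
  intro cK hcK
  obtain ⟨K, ε1, hK, hε1, h10⟩ := hQ10
  obtain ⟨ε2, hε2, h3⟩ := hR3 cK hcK
  obtain ⟨ε3, hε3, h6⟩ := hR6 cK hcK
  obtain ⟨ε4, hε4, hε4', h4⟩ := r8_eps (1000 * K) (by linarith)
  refine ⟨4, min (min ε1 ε2) (min ε3 ε4), by norm_num, by positivity, ?_⟩
  intro ε Hm Hp C cd hPar hεle τ0 l r l0 r0 l1 r1 l2 r2 VL VR hP D V0 hNL hD1 hD2 hW
  have hε : 0 < ε := hPar.1
  have hle1 : ε ≤ ε1 := le_trans hεle (le_trans (min_le_left _ _) (min_le_left _ _))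
  have hle2 : ε ≤ ε2 := le_trans hεle (le_trans (min_le_left _ _) (min_le_right _ _))
  have hle3 : ε ≤ ε3 := le_trans hεle (le_trans (min_le_right _ _) (min_le_left _ _))
  have hle4 : ε ≤ ε4 := le_trans hεle (le_trans (min_le_right _ _) (min_le_right _ _))
  have hε100 : ε ≤ 1 / 100 := le_trans hle4 hε4'
  have hε1' : ε ≤ 1 := by linarith
  have hS := h4 ε hε hle4
  have hKC : (0 : ℝ) ≤ 1000 * K := by linarith
  have hρ : 0 < r - l := by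
    have := hP.kids.lt
    linarith
  obtain ⟨hDρ, hmu, hreg, hLW1, hLW2, _⟩ := h6 ε Hm Hp C cd hPar hle3 τ0 l r l0 r0 l1 r1 l2 r2 VL VR hP D V0 hNL hD1
  obtain ⟨_, hregρ, _⟩ := h3 ε Hm Hp C cd hPar hle2 τ0 l r l0 r0 l1 r1 l2 r2 VL VR hP
  have hDx := hNL.dD
  have hWx : ¬ Wit ε V0.a V0.b l r := hW
  set x := (l + r) / 2 with hx
  set ρ := r - l with hρdef
  have hD0 : 0 < D := by linarith
  have hs0 : 0 < V0.s := by
    unfold Gap.s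
    have := V0.lt
    linarith
  -- the ratio
  have hδ : ρ ≤ ε ^ (9 / 10 : ℝ) * D := by
    have h1 : ε ^ (9 / 10 : ℝ) * (ε ^ (-(9 / 10) : ℝ) * ρ) ≤ ε ^ (9 / 10 : ℝ) * D :=
      mul_le_mul_of_nonneg_left hD2 (Real.rpow_pos_of_pos hε _).le
    have h2 : ε ^ (9 / 10 : ℝ) * (ε ^ (-(9 / 10) : ℝ) * ρ) = ρ := by
      rw [← mul_assoc, ← Real.rpow_add hε]
      norm_num
    linarith only [h1, h2]
  have hρD1 : ρ ≤ D := by
    have h1 : ε ^ (9 / 10 : ℝ) ≤ 1 := Real.rpow_le_one hε.le hε1' (by norm_num)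
    have h2 : ε ^ (9 / 10 : ℝ) * D ≤ 1 * D := mul_le_mul_of_nonneg_right h1 hD0.le
    linarith only [hδ, h2]
  obtain ⟨R, hLW, hDR⟩ : ∃ R : ℝ, V0.LW R ∧ D + V0.s ≤ ε ^ (3 / 10 : ℝ) * R := by
    by_cases hc : V0.s ≤ 2 * D
    · refine ⟨_, hLW1 hc, ?_⟩
      have h1 : ε ^ (3 / 10 : ℝ) * (3 / 100 * ε ^ (-(2 / 5) : ℝ) * Real.sqrt (D / ρ) * D) =
          3 / 100 * ε ^ (-(1 / 10) : ℝ) * Real.sqrt (D / ρ) * D := by
        have h2 : ε ^ (-(1 / 10) : ℝ) = ε ^ (3 / 10 : ℝ) * ε ^ (-(2 / 5) : ℝ) := by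
          rw [← Real.rpow_add hε]
          norm_num
        rw [h2]
        ring
      rw [h1]
      have h2 : 1 ≤ Real.sqrt (D / ρ) := by
        rw [Real.one_le_sqrt, le_div_iff₀ hρ]
        linarith
      have h3 : 100 ≤ ε ^ (-(1 / 10) : ℝ) := by
        have h5 := r8_pw ε (1000 * K) (-(1 / 10)) 0 hε hε1' hKC hS (by norm_num)
        rw [Real.rpow_zero] at h5
        linarith
      have h5 : 3 / 100 * 100 * 1 * D ≤ 3 / 100 * ε ^ (-(1 / 10) : ℝ) * Real.sqrt (D / ρ) * D := by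
        gcongr
      linarith
    · refine ⟨_, hLW2, ?_⟩
      have h1 : ε ^ (3 / 10 : ℝ) * (V0.s / (4 * ε)) = ε ^ (-(7 / 10) : ℝ) / 4 * V0.s := by
        have h2 : ε ^ (-(7 / 10) : ℝ) = ε ^ (3 / 10 : ℝ) / ε := by
          rw [← Real.rpow_sub_one hε.ne']
          norm_num
        rw [h2]
        field_simp
      rw [h1]
      have h3 : 100 ≤ ε ^ (-(7 / 10) : ℝ) := by
        have h5 := r8_pw ε (1000 * K) (-(7 / 10)) 0 hε hε1' hKC hS (by norm_num)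
        rw [Real.rpow_zero] at h5
        linarith
      have h5 : 100 / 4 * V0.s ≤ ε ^ (-(7 / 10) : ℝ) / 4 * V0.s := by gcongr
      push Not at hc
      linarith
  have hR0 : 0 < R := by
    by_contra hcon
    push Not at hcon
    have h1 : ε ^ (3 / 10 : ℝ) * R ≤ 0 :=
      mul_nonpos_of_nonneg_of_nonpos (Real.rpow_pos_of_pos hε _).le hcon
    linarith
  have hDR' : D ≤ ε ^ (3 / 10 : ℝ) * R := by linarith
  obtain ⟨P0, P1, hP0, hP1, hJ1, hJ2, hlaw⟩ := h10 ε Hm Hp C cd hPar hle1 V0 x ρ D R hmu hLW hDx hρ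
    hDρ.le hD1 hDR hreg hregρ
  obtain ⟨herr1, herr2⟩ := r8_err ε ρ D R hε hε1' hρ hD0 hR0 hδ hDR'
  set J := Yf cd x ρ with hJdef
  -- geometry of V0
  set h := V0.s / 2 with hh
  have hh0 : 0 < h := by rw [hh]; linarith
  set τ := x - V0.c with hτdef
  have hτ : τ = D + h := by
    rw [hτdef, hDx, hh]
    unfold Gap.c Gap.s
    ring
  have hτ0 : 0 < τ := by rw [hτ]; linarith
  set Q := Real.sqrt (τ ^ 2 - h ^ 2) with hQ
  have hDD : D * (D + V0.s) = τ ^ 2 - h ^ 2 := by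
    rw [hτ, hh]
    ring
  have hρD : ρ ≤ D / 100 := by
    have h1 := r8_pw ε (1000 * K) 0 (9 / 10) hε hε1' hKC hS (by norm_num)
    rw [Real.rpow_zero] at h1
    have h2 : ε ^ (9 / 10 : ℝ) ≤ 1 / 100 := by
      have h3 := Real.rpow_pos_of_pos hε (9 / 10 : ℝ)
      nlinarith
    have h3 : ε ^ (9 / 10 : ℝ) * D ≤ 1 / 100 * D := mul_le_mul_of_nonneg_right h2 hD0.le
    linarith
  obtain ⟨hQ0, hQ2, _, _, _, _, hQu, _, _, _⟩ := r8_basic τ h Q D 0 ρ hD0 hh0.le hτ hQ hρ hρD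
    (by rw [abs_zero]; positivity)
  have hJ0 : 0 < J := by
    have h1 : 0 < P0 * Real.sqrt (D * (D + V0.s)) * ρ := by
      rw [hDD, ← hQ]
      positivity
    have h2 : 0 < K * D * J := lt_of_lt_of_le h1 hJ1
    have h3 : 0 < K * D := by positivity
    exact (pos_iff_pos_of_mul_pos h2).1 h3
  set c := P1 / P0 with hc
  have hP1c : P1 = P0 * c := by
    rw [hc]
    field_simp
  have hcρ : |c| * ρ ≤ ε ^ (114 / 100 : ℝ) := by
    have h1 : |c| * ρ * P0 = |P1| * ρ := by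
      rw [hP1c, abs_mul, abs_of_pos hP0]
      ring
    have h2 : |c| * ρ ≤ K * (ε ^ (115 / 100 : ℝ) + ρ / R * (R / D) ^ (1 / 10 : ℝ)) := by
      refine le_of_mul_le_mul_right ?_ hP0
      rw [h1]
      exact hP1
    have h3 := r8_pw ε (1000 * K) (114 / 100) (115 / 100) hε hε1' hKC hS (by norm_num)
    have h5 := Real.rpow_pos_of_pos hε (115 / 100 : ℝ)
    have h7 : K * (ε ^ (115 / 100 : ℝ) + ρ / R * (R / D) ^ (1 / 10 : ℝ)) ≤
        K * (ε ^ (115 / 100 : ℝ) + ε ^ (115 / 100 : ℝ)) :=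
      mul_le_mul_of_nonneg_left (by linarith only [herr1]) (by linarith only [hK])
    have h8 : 0 < K * ε ^ (115 / 100 : ℝ) := by positivity
    linarith only [h2, h3, h7, h8]
  have hcD : |c| * D ≤ ε ^ (9 / 100 : ℝ) := by
    calc |c| * D ≤ |c| * (ε ^ (-(21 / 20) : ℝ) * ρ) := mul_le_mul_of_nonneg_left hD1 (abs_nonneg c)
      _ = ε ^ (-(21 / 20) : ℝ) * (|c| * ρ) := by ring
      _ ≤ ε ^ (-(21 / 20) : ℝ) * ε ^ (114 / 100 : ℝ) :=
          mul_le_mul_of_nonneg_left hcρ (Real.rpow_pos_of_pos hε _).le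
      _ = ε ^ (9 / 100 : ℝ) := by
          rw [← Real.rpow_add hε]
          norm_num
  have hcD' : |c| * D ≤ 1 / 100 := by
    have h1 := r8_pw ε (1000 * K) 0 (9 / 100) hε hε1' hKC hS (by norm_num)
    rw [Real.rpow_zero] at h1
    have h3 := Real.rpow_pos_of_pos hε (9 / 100 : ℝ)
    have h5 : 100 * ε ^ (9 / 100 : ℝ) ≤ 1000 * K * ε ^ (9 / 100 : ℝ) := by
      refine mul_le_mul_of_nonneg_right (by linarith only [hK]) h3.le
    linarith only [h1, h5, hcD]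
  have hδ2 : (ρ / D) ^ 2 ≤ ε ^ (180 / 100 : ℝ) := by
    have h1 : ρ / D ≤ ε ^ (9 / 10 : ℝ) := by
      rw [div_le_iff₀ hD0]
      exact hδ
    calc (ρ / D) ^ 2 ≤ (ε ^ (9 / 10 : ℝ)) ^ 2 := pow_le_pow_left₀ (by positivity) h1 2
      _ = ε ^ (180 / 100 : ℝ) := by
          rw [← Real.rpow_natCast, ← Real.rpow_mul hε.le]
          norm_num
  have hδ3 : (ρ / D) ^ 2 ≤ ε / 100 := by
    have h1 := r8_pw ε (1000 * K) 1 (180 / 100) hε hε1' hKC hS (by norm_num)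
    rw [Real.rpow_one] at h1
    have h3 := Real.rpow_pos_of_pos hε (180 / 100 : ℝ)
    have h5 : 100 * ε ^ (180 / 100 : ℝ) ≤ 1000 * K * ε ^ (180 / 100 : ℝ) :=
      mul_le_mul_of_nonneg_right (by linarith only [hK]) h3.le
    linarith only [h1, h5, hδ2]
  have hcρ' : |c| * ρ ≤ ε / 100 := by
    have h1 := r8_pw ε (1000 * K) 1 (114 / 100) hε hε1' hKC hS (by norm_num)
    rw [Real.rpow_one] at h1
    have h3 := Real.rpow_pos_of_pos hε (114 / 100 : ℝ)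
    have h5 : 100 * ε ^ (114 / 100 : ℝ) ≤ 1000 * K * ε ^ (114 / 100 : ℝ) :=
      mul_le_mul_of_nonneg_right (by linarith only [hK]) h3.le
    linarith only [h1, h5, hcρ]
  have hκ : ρ * h ^ 2 ≤ 8 * ε * τ * Q ^ 2 := by
    by_cases hbig : 21 / 20 * ρ ≤ V0.b - V0.a
    · have h1 : ¬ (21 / 20 * (r - l) ≤ V0.b - V0.a ∧ ((V0.a ≤ r ∧ l ≤ V0.b) ∨
          ((V0.b - V0.a) / 2 < |(l + r) / 2 - (V0.a + V0.b) / 2| ∧
          8 * ε * |(l + r) / 2 - (V0.a + V0.b) / 2| * (((l + r) / 2 - (V0.a + V0.b) / 2) ^ 2 -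
            ((V0.b - V0.a) / 2) ^ 2) ≤ (r - l) * ((V0.b - V0.a) / 2) ^ 2))) :=
        fun hh' => hWx (Or.inr (Or.inr hh'))
      have h2 : (l + r) / 2 - (V0.a + V0.b) / 2 = τ := by
        rw [hτdef, hx]
        unfold Gap.c
        ring
      have h3 : (V0.b - V0.a) / 2 = h := by
        rw [hh]
        unfold Gap.s
        ring
      rw [h2, h3, abs_of_pos hτ0] at h1
      by_contra hcon
      push Not at hcon
      apply h1
      refine ⟨hbig, Or.inr ⟨by rw [hτ]; linarith, ?_⟩⟩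
      rw [← hQ2]
      exact hcon.le
    · push Not at hbig
      have h1 : h ≤ ρ := by
        rw [hh]
        unfold Gap.s
        linarith
      have h2 : h ^ 2 ≤ ρ ^ 2 := pow_le_pow_left₀ hh0.le h1 2
      have h3 : D ^ 2 ≤ Q ^ 2 := by
        rw [hQ2, hτ]
        nlinarith
      have h5 : ρ ^ 2 ≤ ε / 100 * D ^ 2 := by
        have h7 : (ρ / D) ^ 2 * D ^ 2 ≤ ε / 100 * D ^ 2 := mul_le_mul_of_nonneg_right hδ3 (by positivity)
        have h8 : (ρ / D) ^ 2 * D ^ 2 = ρ ^ 2 := by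
          field_simp
        rwa [h8] at h7
      have h9 : ρ ≤ τ := by rw [hτ]; linarith
      calc ρ * h ^ 2 ≤ τ * (ε / 100 * Q ^ 2) := by
            refine mul_le_mul h9 ?_ (by positivity) hτ0.le
            have h11 : ε / 100 * D ^ 2 ≤ ε / 100 * Q ^ 2 := mul_le_mul_of_nonneg_left h3 (by positivity)
            linarith only [h2, h5, h11]
        _ = 1 / 100 * (ε * τ * Q ^ 2) := by ring
        _ ≤ 8 * ε * τ * Q ^ 2 := by
            have : 0 ≤ ε * τ * Q ^ 2 := by positivity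
            linarith only [this]
  obtain ⟨hden, hk2⟩ := r8_k2 τ h Q D ρ c ε K hD0 hτ0 hQ0 hQu hρ hK hε hε100 hS hκ hcρ hcD
  set k2 := ρ * (-(h ^ 2 / (Q ^ 2 * τ)) + 2 * c) / (1 + c * (Q ^ 2 / τ)) with hk2def
  set A := τ / Q + c * Q with hA
  set B := -(h ^ 2 / (2 * Q ^ 3)) + c * τ / Q with hB
  have hAeq : A = τ / Q * (1 + c * (Q ^ 2 / τ)) := by
    rw [hA]
    field_simp
  have hA0 : 0 < A := by
    rw [hAeq]
    positivity
  have hAB : A * (k2 / (2 * ρ)) = B := by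
    rw [hAeq, hk2def, hB]
    have hne := hden.ne'
    have hne2 : τ + Q ^ 2 * c ≠ 0 := by
      have h1 : τ + Q ^ 2 * c = τ * (1 + c * (Q ^ 2 / τ)) := by
        field_simp
      rw [h1]
      positivity
    field_simp
  have hAlow : τ / Q / 2 ≤ A := by
    rw [hAeq]
    have hm2 : Q ^ 2 / τ ≤ 2 * D := by
      rw [div_le_iff₀ hτ0]
      linarith only [hQu]
    have hm0 : 0 < Q ^ 2 / τ := by positivity
    have hcm : |c * (Q ^ 2 / τ)| ≤ 1 / 50 := by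
      rw [abs_mul, abs_of_pos hm0]
      calc |c| * (Q ^ 2 / τ) ≤ |c| * (2 * D) := mul_le_mul_of_nonneg_left hm2 (abs_nonneg c)
        _ = 2 * (|c| * D) := by ring
        _ ≤ 1 / 50 := by linarith only [hcD']
    have h1 : (1 : ℝ) / 2 ≤ 1 + c * (Q ^ 2 / τ) := by
      have := (abs_le.1 hcm).1
      linarith only [this]
    calc τ / Q / 2 = τ / Q * (1 / 2) := by ring
      _ ≤ _ := mul_le_mul_of_nonneg_left h1 (by positivity)
  -- error constants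
  have heB : K * eB ε ρ D R ≤ ε ^ (11 / 10 : ℝ) / 400 := by
    have h1 := r8_pw ε (1000 * K) (11 / 10) (117 / 100) hε hε1' hKC hS (by norm_num)
    have h2 : K * eB ε ρ D R ≤ K * (2 * ε ^ (117 / 100 : ℝ)) :=
      mul_le_mul_of_nonneg_left herr2 (by linarith only [hK])
    have h5 := Real.rpow_pos_of_pos hε (11 / 10 : ℝ)
    linarith only [h1, h2, h5]
  have hcoef : (D + 3 / 5 * ρ) / (D - ρ) / Real.pi ≤ 1 := by
    have h1 : 0 < D - ρ := by linarith only [hρD, hD0]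
    rw [div_div, div_le_one (by positivity)]
    have h2 : (D - ρ) * 3 ≤ (D - ρ) * Real.pi :=
      mul_le_mul_of_nonneg_left Real.pi_gt_three.le h1.le
    linarith only [h2, hρD, hD0]
  have hcoef0 : 0 ≤ (D + 3 / 5 * ρ) / (D - ρ) / Real.pi := by
    have h1 : 0 < D - ρ := by linarith only [hρD, hD0]
    positivity
  -- the law for one gap
  have hone : ∀ V : Gap cd, x - 3 / 5 * ρ ≤ V.a → V.b ≤ x + 3 / 5 * ρ → V.s ≤ ε ^ (59 / 100 : ℝ) * ρ →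
      |V.N - V0.N - P0 * (Q + A * (V.c - x) + B * (V.c - x) ^ 2)| ≤
        nn x ρ V + ε ^ (11 / 10 : ℝ) / 400 * J + P0 * (4 * (ρ / D) ^ 2 * (τ / Q) * ρ) ∧
      P0 * A * (1 - 10 * ε) ≤ V.kk + 2 / ρ * nn x ρ V + ε ^ (11 / 10 : ℝ) * J / ρ := by
    intro V hVa hVb hVs
    obtain ⟨hl1, hl2⟩ := hlaw V hVa hVb hVs
    have hnn := r8_nn hP2 hPar.2.1 x ρ V
    have hX : |V.c - x| ≤ 3 / 5 * ρ := by
      have hlt := V.lt
      unfold Gap.c
      rw [abs_le]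
      constructor <;> linarith only [hVa, hVb, hlt]
    set X := V.c - x with hXdef
    have hVc : V.c - V0.c = τ + X := by
      rw [hτdef, hXdef]
      ring
    have htay := r8_tay τ h Q D X ρ c hD0 hh0.le hτ hQ hρ hρD hX hcD'
    have hder := r8_der τ h Q D X ρ c ε hD0 hh0.le hτ hQ hρ hρD hX hcD' hε hε100 hκ hcρ' hδ3
    have hUU : UU V0 x P0 P1 V.c = P0 * (Real.sqrt ((τ + X) ^ 2 - h ^ 2) * (1 + c * X)) := by
      unfold UU
      rw [hVc, hP1c]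
      ring
    have hUD : UD V0 x P0 P1 V.c = P0 * ((τ + X) / Real.sqrt ((τ + X) ^ 2 - h ^ 2) * (1 + c * X) +
        Real.sqrt ((τ + X) ^ 2 - h ^ 2) * c) := by
      unfold UD
      rw [hVc, hP1c]
      ring
    rw [hUU] at hl1
    rw [hUU, hUD] at hl2
    set W := Real.sqrt ((τ + X) ^ 2 - h ^ 2) * (1 + c * X) with hWdef
    set E := |V.N - V0.N - P0 * W| with hE
    have hEb : E ≤ nn x ρ V + ε ^ (11 / 10 : ℝ) / 400 * J := by
      have h1 : (D + 3 / 5 * ρ) / (D - ρ) / Real.pi * nn x ρ V ≤ 1 * nn x ρ V :=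
        mul_le_mul_of_nonneg_right hcoef hnn
      have h2 : K * eB ε ρ D R * J ≤ ε ^ (11 / 10 : ℝ) / 400 * J :=
        mul_le_mul_of_nonneg_right heB hJ0.le
      linarith only [hl1, h1, h2]
    constructor
    · have h1 : V.N - V0.N - P0 * (Q + A * X + B * X ^ 2) =
          (V.N - V0.N - P0 * W) + P0 * (W - (Q + A * X + B * X ^ 2)) := by ring
      rw [h1]
      refine le_trans (abs_add_le _ _) ?_
      have h2 : |P0 * (W - (Q + A * X + B * X ^ 2))| ≤ P0 * (4 * (ρ / D) ^ 2 * (τ / Q) * ρ) := by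
        rw [abs_mul, abs_of_pos hP0]
        exact mul_le_mul_of_nonneg_left htay hP0.le
      exact add_le_add hEb h2
    · have h1 : P0 * A * (1 - 10 * ε) ≤ P0 * ((τ + X) / Real.sqrt ((τ + X) ^ 2 - h ^ 2) * (1 + c * X) +
          Real.sqrt ((τ + X) ^ 2 - h ^ 2) * c) := by
        rw [mul_assoc]
        exact mul_le_mul_of_nonneg_left hder hP0.le
      have h2 : 5 / 4 * E / ρ ≤ 5 / 4 * (nn x ρ V + ε ^ (11 / 10 : ℝ) / 400 * J) / ρ := by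
        gcongr
      have h3 : K * eB ε ρ D R * J / ρ ≤ ε ^ (11 / 10 : ℝ) / 400 * J / ρ := by
        have : K * eB ε ρ D R * J ≤ ε ^ (11 / 10 : ℝ) / 400 * J := mul_le_mul_of_nonneg_right heB hJ0.le
        gcongr
      have h5 : 5 / 4 * (nn x ρ V + ε ^ (11 / 10 : ℝ) / 400 * J) / ρ + ε ^ (11 / 10 : ℝ) / 400 * J / ρ ≤
          2 / ρ * nn x ρ V + ε ^ (11 / 10 : ℝ) * J / ρ := by
        have h7 : 0 ≤ nn x ρ V / ρ := by positivity
        have h8 : 0 ≤ ε ^ (11 / 10 : ℝ) * J / ρ := by positivity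
        have h9 : 5 / 4 * (nn x ρ V + ε ^ (11 / 10 : ℝ) / 400 * J) / ρ + ε ^ (11 / 10 : ℝ) / 400 * J / ρ =
            5 / 4 * (nn x ρ V / ρ) + 9 / 1600 * (ε ^ (11 / 10 : ℝ) * J / ρ) := by ring
        have h11 : 2 / ρ * nn x ρ V = 2 * (nn x ρ V / ρ) := by ring
        rw [h9, h11]
        linarith only [h7, h8]
      linarith only [h1, h2, h3, h5, hl2]
  refine ⟨P0 * A, k2, by positivity, hk2, ?_⟩
  intro V hVa hVb hVs
  obtain ⟨hV1, hV2⟩ := hone V hVa hVb hVs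
  have hnnV := r8_nn hP2 hPar.2.1 x ρ V
  constructor
  · have h1 : 2 / ρ * nn x ρ V ≤ 4 / ρ * nn x ρ V := by gcongr; norm_num
    linarith only [hV2, h1]
  · intro W hWa hWb hWs _
    obtain ⟨hW1, _⟩ := hone W hWa hWb hWs
    have hnnW := r8_nn hP2 hPar.2.1 x ρ W
    have h1 : (W.N - V.N) - P0 * A * ((W.c - V.c) + k2 / (2 * ρ) * ((W.c - x) ^ 2 - (V.c - x) ^ 2)) =
        (W.N - V0.N - P0 * (Q + A * (W.c - x) + B * (W.c - x) ^ 2)) -
        (V.N - V0.N - P0 * (Q + A * (V.c - x) + B * (V.c - x) ^ 2)) := by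
      rw [← hAB]
      ring
    rw [h1]
    refine le_trans (abs_sub _ _) ?_
    have h2 : P0 * (4 * (ρ / D) ^ 2 * (τ / Q) * ρ) ≤ ε ^ (102 / 100 : ℝ) / 4 * (P0 * A) * ρ := by
      have h3 : 1000 * K * ε ^ (180 / 100 : ℝ) ≤ ε ^ (102 / 100 : ℝ) :=
        r8_pw ε (1000 * K) (102 / 100) (180 / 100) hε hε1' hKC hS (by norm_num)
      have h5 : 4 * (ρ / D) ^ 2 ≤ ε ^ (102 / 100 : ℝ) / 8 := by
        have h7 := Real.rpow_pos_of_pos hε (180 / 100 : ℝ)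
        have h8 : 1000 * ε ^ (180 / 100 : ℝ) ≤ 1000 * K * ε ^ (180 / 100 : ℝ) :=
          mul_le_mul_of_nonneg_right (by linarith only [hK]) h7.le
        linarith only [h3, h7, h8, hδ2]
      have h6 : τ / Q ≤ 2 * A := by linarith only [hAlow]
      have h7 : 4 * (ρ / D) ^ 2 * (τ / Q) ≤ ε ^ (102 / 100 : ℝ) / 8 * (2 * A) :=
        mul_le_mul h5 h6 (by positivity) (by positivity)
      calc P0 * (4 * (ρ / D) ^ 2 * (τ / Q) * ρ) = P0 * ρ * (4 * (ρ / D) ^ 2 * (τ / Q)) := by ring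
        _ ≤ P0 * ρ * (ε ^ (102 / 100 : ℝ) / 8 * (2 * A)) := mul_le_mul_of_nonneg_left h7 (by positivity)
        _ = ε ^ (102 / 100 : ℝ) / 4 * (P0 * A) * ρ := by ring
    have h3 : 0 ≤ ε ^ (102 / 100 : ℝ) * (P0 * A) * ρ := by positivity
    have h5 : 0 ≤ ε ^ (11 / 10 : ℝ) * J := by positivity
    linarith only [hV1, hW1, h2, h3, h5, hnnV, hnnW]

end

end Pool.Agent.Helper80.CV.R8
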