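import Mathlib
import Pool.Agent.Helper36.CV.StmtsE
import Pool.Agent.Helper39.CV.FG

set_option autoImplicit false
set_option linter.unusedVariables false

namespace Pool.Agent.Helper80.CVE4

open Complex Filter Topology MeasureTheory Set
open Pool.Agent.Helper36.CV
open Pool.Agent.Helper39.CV

noncomputable section

variable {Hm Hp : ℝ} {C : Set ℝ}

/-! growth -/

theorem single_aux (s : ℝ) : ∃ K : ℝ, 1 ≤ K ∧ ∀ z : ℂ, z ≠ s →
    uu s z ≤ K * (1 + ‖z‖) ^ (-(1 / 2) : ℝ) * (1 + uu s z) := by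
  set K0 : ℝ := 1 + |s| with hK0
  have hK01 : 1 ≤ K0 := by
    have := abs_nonneg s
    linarith
  have hK1 : 1 ≤ K0 ^ (1 / 2 : ℝ) := Real.one_le_rpow hK01 (by norm_num)
  refine ⟨2 * K0 ^ (1 / 2 : ℝ), by linarith, fun z hz => ?_⟩
  have hn : 0 < ‖z - ((s : ℝ) : ℂ)‖ := norm_pos_iff.mpr (sub_ne_zero.mpr hz)
  have hz1 : ‖z‖ ≤ |s| + ‖z - ((s : ℝ) : ℂ)‖ := by
    calc ‖z‖ = ‖((s : ℝ) : ℂ) + (z - ((s : ℝ) : ℂ))‖ := by
          congr 1
          ring
      _ ≤ ‖((s : ℝ) : ℂ)‖ + ‖z - ((s : ℝ) : ℂ)‖ := norm_add_le _ _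
      _ = _ := by rw [Complex.norm_real, Real.norm_eq_abs]
  have hu := uu_nonneg s z
  have hw : 0 ≤ (1 + ‖z‖) ^ (-(1 / 2) : ℝ) := by positivity
  have hz0 : 0 ≤ ‖z‖ := norm_nonneg z
  have hab : 0 ≤ |s| := abs_nonneg s
  rcases le_total ‖z - ((s : ℝ) : ℂ)‖ 1 with h | h
  · -- near: (1 + |z|)^(-1/2) >= (2 K0)^(-1/2)
    have h1 : 1 + ‖z‖ ≤ 2 * K0 := by rw [hK0]; linarith
    have h2 : (2 * K0) ^ (-(1 / 2) : ℝ) ≤ (1 + ‖z‖) ^ (-(1 / 2) : ℝ) :=
      Real.rpow_le_rpow_of_nonpos (by positivity) h1 (by norm_num)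
    rw [Real.mul_rpow (by norm_num) (by linarith)] at h2
    have h3 : K0 ^ (1 / 2 : ℝ) * K0 ^ (-(1 / 2) : ℝ) = 1 := by
      rw [← Real.rpow_add (by linarith)]
      norm_num
    have h4 : (1 / 2 : ℝ) ≤ (2 : ℝ) ^ (-(1 / 2) : ℝ) := by
      have : (2 : ℝ) ^ (-1 : ℝ) ≤ (2 : ℝ) ^ (-(1 / 2) : ℝ) :=
        Real.rpow_le_rpow_of_exponent_le (by norm_num) (by norm_num)
      have h5 : (2 : ℝ) ^ (-1 : ℝ) = 1 / 2 := by
        rw [Real.rpow_neg_one]
        norm_num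
      linarith
    have h6 : 1 ≤ 2 * K0 ^ (1 / 2 : ℝ) * (1 + ‖z‖) ^ (-(1 / 2) : ℝ) := by
      have h7 : 0 ≤ K0 ^ (-(1 / 2) : ℝ) := by positivity
      have h8 : (1 / 2) * K0 ^ (-(1 / 2) : ℝ) ≤ (1 + ‖z‖) ^ (-(1 / 2) : ℝ) :=
        le_trans (mul_le_mul_of_nonneg_right h4 h7) h2
      have h9 : 2 * K0 ^ (1 / 2 : ℝ) * ((1 / 2) * K0 ^ (-(1 / 2) : ℝ)) ≤
          2 * K0 ^ (1 / 2 : ℝ) * (1 + ‖z‖) ^ (-(1 / 2) : ℝ) :=
        mul_le_mul_of_nonneg_left h8 (by positivity)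
      have h10 : 2 * K0 ^ (1 / 2 : ℝ) * ((1 / 2) * K0 ^ (-(1 / 2) : ℝ)) = K0 ^ (1 / 2 : ℝ) * K0 ^ (-(1 / 2) : ℝ) := by
        ring
      linarith
    nlinarith
  · -- far
    have h1 : 1 + ‖z‖ ≤ 2 * K0 * ‖z - ((s : ℝ) : ℂ)‖ := by
      rw [hK0]
      nlinarith
    have h2 : (2 * K0 * ‖z - ((s : ℝ) : ℂ)‖) ^ (-(1 / 2) : ℝ) ≤ (1 + ‖z‖) ^ (-(1 / 2) : ℝ) :=
      Real.rpow_le_rpow_of_nonpos (by positivity) h1 (by norm_num)
    rw [Real.mul_rpow (by positivity) hn.le, Real.mul_rpow (by norm_num) (by linarith)] at h2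
    have h3 : K0 ^ (1 / 2 : ℝ) * K0 ^ (-(1 / 2) : ℝ) = 1 := by
      rw [← Real.rpow_add (by linarith)]
      norm_num
    have h4 : (1 / 2 : ℝ) ≤ (2 : ℝ) ^ (-(1 / 2) : ℝ) := by
      have : (2 : ℝ) ^ (-1 : ℝ) ≤ (2 : ℝ) ^ (-(1 / 2) : ℝ) :=
        Real.rpow_le_rpow_of_exponent_le (by norm_num) (by norm_num)
      have h5 : (2 : ℝ) ^ (-1 : ℝ) = 1 / 2 := by
        rw [Real.rpow_neg_one]
        norm_num
      linarith
    have h7 : 0 ≤ K0 ^ (-(1 / 2) : ℝ) := by positivity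
    have h8 : (1 / 2) * K0 ^ (-(1 / 2) : ℝ) * uu s z ≤ (1 + ‖z‖) ^ (-(1 / 2) : ℝ) :=
      le_trans (mul_le_mul_of_nonneg_right (mul_le_mul_of_nonneg_right h4 h7) hu) h2
    have h9 : 2 * K0 ^ (1 / 2 : ℝ) * ((1 / 2) * K0 ^ (-(1 / 2) : ℝ) * uu s z) ≤
        2 * K0 ^ (1 / 2 : ℝ) * (1 + ‖z‖) ^ (-(1 / 2) : ℝ) :=
      mul_le_mul_of_nonneg_left h8 (by positivity)
    have h10 : 2 * K0 ^ (1 / 2 : ℝ) * ((1 / 2) * K0 ^ (-(1 / 2) : ℝ) * uu s z) = uu s z := by
      calc 2 * K0 ^ (1 / 2 : ℝ) * ((1 / 2) * K0 ^ (-(1 / 2) : ℝ) * uu s z) =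
          (K0 ^ (1 / 2 : ℝ) * K0 ^ (-(1 / 2) : ℝ)) * uu s z := by ring
        _ = uu s z := by rw [h3, one_mul]
    have h11 : 0 ≤ 2 * K0 ^ (1 / 2 : ℝ) * (1 + ‖z‖) ^ (-(1 / 2) : ℝ) := by positivity
    nlinarith

theorem tri_aux (u1 u2 u3 w K : ℝ) (h1 : 0 ≤ u1) (h2 : 0 ≤ u2) (h3 : 0 ≤ u3)
    (hw : 0 ≤ w) (hK : 0 ≤ K) (h12 : u1 * u2 ≤ K * w * (u1 + u2)) (h13 : u1 * u3 ≤ K * w * (u1 + u3))
    (h23 : u2 * u3 ≤ K * w * (u2 + u3)) (s1 : u1 ≤ K * w * (1 + u1)) (s2 : u2 ≤ K * w * (1 + u2))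
    (s3 : u3 ≤ K * w * (1 + u3)) :
    u1 * u2 * u3 ≤ 6 * (K * w) ^ 3 * (1 + (u1 + u2 + u3)) := by
  have hq : 0 ≤ K * w := mul_nonneg hK hw
  set q := K * w
  have a1 : u1 * u2 * u3 ≤ q * (u1 + u2) * u3 := mul_le_mul_of_nonneg_right h12 h3
  have a2 : q * (u1 + u2) * u3 = q * (u1 * u3 + u2 * u3) := by ring
  have a3 : q * (u1 * u3 + u2 * u3) ≤ q * (q * (u1 + u3) + q * (u2 + u3)) :=
    mul_le_mul_of_nonneg_left (by linarith) hq
  have a4 : q * (q * (u1 + u3) + q * (u2 + u3)) = q ^ 2 * (u1 + u2 + 2 * u3) := by ring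
  have a5 : q ^ 2 * (u1 + u2 + 2 * u3) ≤ q ^ 2 * (2 * (q * (3 + (u1 + u2 + u3)))) := by
    apply mul_le_mul_of_nonneg_left _ (by positivity)
    nlinarith
  have a6 : q ^ 2 * (2 * (q * (3 + (u1 + u2 + u3)))) = q ^ 3 * (6 + 2 * (u1 + u2 + u3)) := by ring
  have a7 : q ^ 3 * (6 + 2 * (u1 + u2 + u3)) ≤ q ^ 3 * (6 * (1 + (u1 + u2 + u3))) :=
    mul_le_mul_of_nonneg_left (by linarith) (by positivity)
  linarith

theorem f_bound (cd : CD Hm Hp C) (N : ℝ) : ∃ B : ℝ, 0 ≤ B ∧ ∀ z : ℂ, 0 ≤ z.im →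
    ‖cd.f z - N‖ ≤ B * (1 + Real.log (1 + ‖z‖)) := by
  obtain ⟨A, hA⟩ := cd.growth
  refine ⟨|A| + |N| + 1, by positivity, fun z a => ?_⟩
  have hlog : 0 ≤ Real.log (1 + ‖z‖) := Real.log_nonneg (by linarith [norm_nonneg z])
  have e1 : ‖cd.f z - N‖ ≤ ‖cd.f z‖ + ‖(N : ℂ)‖ := norm_sub_le _ _
  rw [Complex.norm_real, Real.norm_eq_abs] at e1
  have e2 := hA z a
  have e3 := le_abs_self A
  have e4 : 0 ≤ (|A| + |N|) * Real.log (1 + ‖z‖) := by positivity
  nlinarith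

/-! the function with one square root -/

def GE (cd : CD Hm Hp C) (N c : ℝ) (z : ℂ) : ℂ := (cd.f z - N) / Helper39.CV.sq (z - c)

def FE (cd : CD Hm Hp C) (N c : ℝ) (W : Gap cd) (z : ℂ) : ℂ :=
  (cd.f z - N) / (Helper39.CV.sq (z - c) * qc W.a W.b z)

def SE {cd : CD Hm Hp C} (c : ℝ) (W : Gap cd) : Finset ℝ := {c, W.a, W.b}

theorem sqc_cont (c : ℝ) : ContinuousOn (fun z : ℂ => Helper39.CV.sq (z - c)) {z : ℂ | 0 ≤ z.im ∧ z ≠ c} := by
  refine sq_continuousOn.comp (continuous_id.sub continuous_const).continuousOn ?_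
  intro z hz
  exact ⟨by simpa using hz.1, sub_ne_zero.mpr hz.2⟩

theorem sqc_diff (c : ℝ) {z : ℂ} (hz : 0 < z.im) : DifferentiableAt ℂ (fun z : ℂ => Helper39.CV.sq (z - c)) z := by
  have h := sq_differentiableAt (z := z - c) (by simpa using hz)
  exact h.comp z ((differentiableAt_id).sub_const _)

theorem sqc_right {c t : ℝ} (h : c ≤ t) : Helper39.CV.sq ((t : ℂ) - c) = (Real.sqrt (t - c) : ℂ) := by
  have h1 : ((t : ℂ) - c) = ((t - c : ℝ) : ℂ) := by push_cast; ring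
  rw [h1, sq_real_pos (by linarith)]

theorem sqc_left {c t : ℝ} (h : t ≤ c) : Helper39.CV.sq ((t : ℂ) - c) = I * (Real.sqrt (c - t) : ℂ) := by
  have h1 : ((t : ℂ) - c) = ((t - c : ℝ) : ℂ) := by push_cast; ring
  rw [h1, sq_real_neg (by linarith)]
  have h2 : -(t - c) = c - t := by ring
  rw [h2]

theorem mem_Ucm_single {c : ℝ} {z : ℂ} (hz : z ∈ Ucm {c}) : 0 ≤ z.im ∧ z ≠ (c : ℂ) :=
  ⟨hz.1, hz.2 c (by simp)⟩

theorem mem_Ucm_SE {cd : CD Hm Hp C} {c : ℝ} {W : Gap cd} {z : ℂ} (hz : z ∈ Ucm (SE c W)) :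
    0 ≤ z.im ∧ z ≠ (c : ℂ) ∧ z ≠ (W.a : ℂ) ∧ z ≠ (W.b : ℂ) := by
  refine ⟨hz.1, hz.2 _ ?_, hz.2 _ ?_, hz.2 _ ?_⟩ <;> simp [SE]

theorem GE_cont (cd : CD Hm Hp C) (N c : ℝ) : ContinuousOn (GE cd N c) (Ucm {c}) := by
  have h1 : ContinuousOn cd.f (Ucm {c}) := cd.cont.mono (fun z hz => hz.1)
  have h2 : ContinuousOn (fun z : ℂ => Helper39.CV.sq (z - c)) (Ucm {c}) :=
    (sqc_cont c).mono (fun z hz => mem_Ucm_single hz)
  refine (h1.sub continuousOn_const).div h2 (fun z hz => ?_)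
  exact sq_ne_zero (sub_ne_zero.mpr (mem_Ucm_single hz).2)

theorem GE_diff (cd : CD Hm Hp C) (N c : ℝ) : DifferentiableOn ℂ (GE cd N c) Uo := by
  intro z hz
  have hz' : 0 < z.im := hz
  have h1 : DifferentiableWithinAt ℂ cd.f Uo z := cd.ana z hz
  have h2 : DifferentiableWithinAt ℂ (fun z : ℂ => Helper39.CV.sq (z - c)) Uo z := (sqc_diff c hz').differentiableWithinAt
  refine (h1.sub_const _).div h2 ?_
  exact sq_ne_zero (sub_ne_zero.mpr (ne_real_of_im hz' _))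

theorem GE_growth (cd : CD Hm Hp C) (N c : ℝ) : ∃ A : ℝ, ∀ z ∈ Ucm {c},
    ‖GE cd N c z‖ ≤ A * (1 + Real.log (1 + ‖z‖)) * (1 + ‖z‖) ^ (-(1 / 2) : ℝ) * wS {c} z := by
  obtain ⟨K, hK, hk⟩ := single_aux c
  obtain ⟨B, hB, hb⟩ := f_bound cd N
  refine ⟨B * K, fun z hz => ?_⟩
  obtain ⟨h1, h2⟩ := mem_Ucm_single hz
  have e1 : ‖GE cd N c z‖ = ‖cd.f z - N‖ * uu c z := by
    rw [GE, norm_div, norm_sq, div_eq_mul_inv, inv_rpow_half _ (norm_pos_iff.mpr (sub_ne_zero.mpr h2))]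
    rfl
  have e2 : wS {c} z = 1 + uu c z := by
    rw [wS, Finset.sum_singleton]
    rfl
  rw [e1, e2]
  have hlog : 0 ≤ Real.log (1 + ‖z‖) := Real.log_nonneg (by linarith [norm_nonneg z])
  calc ‖cd.f z - N‖ * uu c z ≤ (B * (1 + Real.log (1 + ‖z‖))) * (K * (1 + ‖z‖) ^ (-(1 / 2) : ℝ) * (1 + uu c z)) :=
        mul_le_mul (hb z h1) (hk z h2) (uu_nonneg _ _) (by positivity)
    _ = _ := by ring

theorem FE_cont (cd : CD Hm Hp C) (N c : ℝ) (W : Gap cd) : ContinuousOn (FE cd N c W) (Ucm (SE c W)) := by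
  have h1 : ContinuousOn cd.f (Ucm (SE c W)) := cd.cont.mono (fun z hz => hz.1)
  have h2 : ContinuousOn (fun z : ℂ => Helper39.CV.sq (z - c)) (Ucm (SE c W)) :=
    (sqc_cont c).mono (fun z hz => by
      obtain ⟨a, b, c, d⟩ := mem_Ucm_SE hz
      exact ⟨a, b⟩)
  have h3 : ContinuousOn (qc W.a W.b) (Ucm (SE c W)) :=
    (qc_continuousOn W.a W.b).mono (fun z hz => by
      obtain ⟨a, b, c, d⟩ := mem_Ucm_SE hz
      exact ⟨a, c, d⟩)
  refine (h1.sub continuousOn_const).div (h2.mul h3) (fun z hz => ?_)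
  obtain ⟨a, b, c, d⟩ := mem_Ucm_SE hz
  exact mul_ne_zero (sq_ne_zero (sub_ne_zero.mpr b)) (qc_ne_zero c d)

theorem FE_diff (cd : CD Hm Hp C) (N c : ℝ) (W : Gap cd) : DifferentiableOn ℂ (FE cd N c W) Uo := by
  intro z hz
  have hz' : 0 < z.im := hz
  have h1 : DifferentiableWithinAt ℂ cd.f Uo z := cd.ana z hz
  have h2 : DifferentiableWithinAt ℂ (fun z : ℂ => Helper39.CV.sq (z - c)) Uo z := (sqc_diff c hz').differentiableWithinAt
  have h3 : DifferentiableWithinAt ℂ (qc W.a W.b) Uo z := (qc_differentiableAt _ _ hz').differentiableWithinAt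
  refine (h1.sub_const _).div (h2.mul h3) ?_
  exact mul_ne_zero (sq_ne_zero (sub_ne_zero.mpr (ne_real_of_im hz' _)))
    (qc_ne_zero (ne_real_of_im hz' _) (ne_real_of_im hz' _))

theorem wS_SE {cd : CD Hm Hp C} {c : ℝ} {W : Gap cd} (h : c < W.a) (z : ℂ) :
    wS (SE c W) z = 1 + (uu c z + uu W.a z + uu W.b z) := by
  have h2 := W.lt
  have d1 : c ≠ W.a := h.ne
  have d2 : c ≠ W.b := (h.trans h2).ne
  have d3 : W.a ≠ W.b := h2.ne
  rw [wS, SE, Finset.sum_insert, Finset.sum_insert, Finset.sum_singleton]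
  · simp only [uu]
    ring
  · simpa using d3
  · simp [d1, d2]

theorem FE_growth (cd : CD Hm Hp C) (N c : ℝ) (W : Gap cd) (h : c < W.a) :
    ∃ A : ℝ, 0 ≤ A ∧ ∀ z ∈ Ucm (SE c W),
      ‖FE cd N c W z‖ ≤ A * (1 + Real.log (1 + ‖z‖)) * (1 + ‖z‖) ^ (-(3 / 2) : ℝ) * wS (SE c W) z := by
  have h2 := W.lt
  have d1 : c ≠ W.a := h.ne
  have d2 : c ≠ W.b := (h.trans h2).ne
  have d3 : W.a ≠ W.b := h2.ne
  obtain ⟨K1, hK1, p1⟩ := pair_aux _ _ d1
  obtain ⟨K2, hK2, p2⟩ := pair_aux _ _ d2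
  obtain ⟨K3, hK3, p3⟩ := pair_aux _ _ d3
  obtain ⟨K4, hK4, p4⟩ := single_aux c
  obtain ⟨K5, hK5, p5⟩ := single_aux W.a
  obtain ⟨K6, hK6, p6⟩ := single_aux W.b
  obtain ⟨B, hB, hb⟩ := f_bound cd N
  set K := K1 + K2 + K3 + K4 + K5 + K6 with hK
  have hK0 : 0 ≤ K := by linarith
  refine ⟨B * (6 * K ^ 3), by positivity, fun z hz => ?_⟩
  obtain ⟨a0, a1, a2, a3⟩ := mem_Ucm_SE hz
  have e1 : ‖FE cd N c W z‖ = ‖cd.f z - N‖ * (uu c z * uu W.a z * uu W.b z) := by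
    rw [FE, norm_div, norm_mul, norm_sq, norm_qc, div_eq_mul_inv, mul_inv, mul_inv]
    simp only [uu]
    rw [inv_rpow_half _ (norm_pos_iff.mpr (sub_ne_zero.mpr a1)), inv_rpow_half _ (norm_pos_iff.mpr (sub_ne_zero.mpr a2)),
      inv_rpow_half _ (norm_pos_iff.mpr (sub_ne_zero.mpr a3))]
    ring
  rw [e1, wS_SE h]
  have hw : 0 ≤ (1 + ‖z‖) ^ (-(1 / 2) : ℝ) := by positivity
  have g : ∀ (K' : ℝ), K' ≤ K → ∀ s s' : ℝ,
      uu s z * uu s' z ≤ K' * (1 + ‖z‖) ^ (-(1 / 2) : ℝ) * (uu s z + uu s' z) →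
      uu s z * uu s' z ≤ K * (1 + ‖z‖) ^ (-(1 / 2) : ℝ) * (uu s z + uu s' z) := by
    intro K' hK' s s' h
    refine h.trans ?_
    apply mul_le_mul_of_nonneg_right _ (add_nonneg (uu_nonneg _ _) (uu_nonneg _ _))
    exact mul_le_mul_of_nonneg_right hK' hw
  have g' : ∀ (K' : ℝ), K' ≤ K → ∀ s : ℝ,
      uu s z ≤ K' * (1 + ‖z‖) ^ (-(1 / 2) : ℝ) * (1 + uu s z) →
      uu s z ≤ K * (1 + ‖z‖) ^ (-(1 / 2) : ℝ) * (1 + uu s z) := by
    intro K' hK' s h
    refine h.trans ?_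
    apply mul_le_mul_of_nonneg_right _ (add_nonneg zero_le_one (uu_nonneg _ _))
    exact mul_le_mul_of_nonneg_right hK' hw
  have q := tri_aux (uu c z) (uu W.a z) (uu W.b z) ((1 + ‖z‖) ^ (-(1 / 2) : ℝ)) K
    (uu_nonneg _ _) (uu_nonneg _ _) (uu_nonneg _ _) hw hK0
    (g K1 (by linarith) _ _ (p1 z a1 a2)) (g K2 (by linarith) _ _ (p2 z a1 a3)) (g K3 (by linarith) _ _ (p3 z a2 a3))
    (g' K4 (by linarith) _ (p4 z a1)) (g' K5 (by linarith) _ (p5 z a2)) (g' K6 (by linarith) _ (p6 z a3))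
  have hw3 : (K * (1 + ‖z‖) ^ (-(1 / 2) : ℝ)) ^ 3 = K ^ 3 * (1 + ‖z‖) ^ (-(3 / 2) : ℝ) := by
    rw [mul_pow, ← Real.rpow_natCast ((1 + ‖z‖) ^ (-(1 / 2) : ℝ)) 3, ← Real.rpow_mul (by positivity)]
    norm_num
  rw [hw3] at q
  have hlog : 0 ≤ Real.log (1 + ‖z‖) := Real.log_nonneg (by linarith [norm_nonneg z])
  have hP : 0 ≤ uu c z * uu W.a z * uu W.b z := by
    have := uu_nonneg c z
    have := uu_nonneg W.a z
    have := uu_nonneg W.b z
    positivity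
  calc ‖cd.f z - N‖ * (uu c z * uu W.a z * uu W.b z)
      ≤ (B * (1 + Real.log (1 + ‖z‖))) * (6 * (K ^ 3 * (1 + ‖z‖) ^ (-(3 / 2) : ℝ)) * (1 + (uu c z + uu W.a z + uu W.b z))) :=
        mul_le_mul (hb z a0) q hP (by positivity)
    _ = _ := by ring

/-! boundary values -/

theorem GE_im_right (cd : CD Hm Hp C) (N c : ℝ) {t : ℝ} (h : c ≤ t) :
    (GE cd N c t).im = vf cd t / Real.sqrt (t - c) := by
  rw [GE, sqc_right h, Complex.div_ofReal_im]
  simp [vf]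

theorem GE_im_left (cd : CD Hm Hp C) (N c : ℝ) {t : ℝ} (h : t ≤ c) :
    (GE cd N c t).im = (N - Nf cd t) / Real.sqrt (c - t) := by
  rw [GE, sqc_left h, im_div_I]
  congr 1
  simp [Nf]

theorem FE_im_right (cd : CD Hm Hp C) (N c : ℝ) (W : Gap cd) {t : ℝ} (h : c ≤ t) (h2 : t ∉ Ioo W.a W.b) :
    (FE cd N c W t).im = vf cd t / Real.sqrt (t - c) / W.q t := by
  rw [FE, sqc_right h, qc_out W.lt h2, ← Complex.ofReal_mul, Complex.div_ofReal_im, div_div]
  simp [vf, Gap.q]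

theorem FE_im_left (cd : CD Hm Hp C) (N c : ℝ) (W : Gap cd) {t : ℝ} (h : t ≤ c) (h2 : t ∉ Ioo W.a W.b) :
    (FE cd N c W t).im = (N - Nf cd t) / Real.sqrt (c - t) / W.q t := by
  have e : FE cd N c W t = (cd.f t - N) / (I * ((Real.sqrt (c - t) * qr W.a W.b t : ℝ) : ℂ)) := by
    rw [FE, sqc_left h, qc_out W.lt h2]
    push_cast
    ring
  rw [e, im_div_I, div_div]
  congr 1
  simp [Nf]

theorem FE_im_W (cd : CD Hm Hp C) (N c : ℝ) (W : Gap cd) {t : ℝ} (h : c ≤ t) (h1 : t ∈ Ioo W.a W.b) :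
    (FE cd N c W t).im = (N - W.N) / (Real.sqrt (t - c) * Real.sqrt ((t - W.a) * (W.b - t))) := by
  have e : FE cd N c W t = (cd.f t - N) / (I * ((Real.sqrt (t - c) * Real.sqrt ((t - W.a) * (W.b - t)) : ℝ) : ℂ)) := by
    rw [FE, sqc_right h, qc_in h1]
    push_cast
    ring
  rw [e, im_div_I]
  have h3 : (cd.f t - (N : ℂ)).re = W.N - N := by
    have := W.lab t ⟨h1.1.le, h1.2.le⟩
    rw [Complex.sub_re, Complex.ofReal_re]
    have h4 : (cd.f t).re = W.N := by simpa [Nf, Gap.N] using this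
    rw [h4]
  rw [h3]
  congr 1
  ring

theorem FE_re_W (cd : CD Hm Hp C) (N c : ℝ) (W : Gap cd) {t : ℝ} (h : c ≤ t) (h1 : t ∈ Ioo W.a W.b) :
    (FE cd N c W t).re = vf cd t / (Real.sqrt (t - c) * Real.sqrt ((t - W.a) * (W.b - t))) := by
  have e : FE cd N c W t = (cd.f t - N) / (I * ((Real.sqrt (t - c) * Real.sqrt ((t - W.a) * (W.b - t)) : ℝ) : ℂ)) := by
    rw [FE, sqc_right h, qc_in h1]
    push_cast
    ring
  rw [e, re_div_I]
  congr 1
  simp [vf]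

/-! limit at a point of the line where the weight vanishes nearby -/

theorem lim_pt (G : ℂ → ℂ) (S : Finset ℝ) (c r : ℝ) (hr0 : 0 < r) (hcont : ContinuousOn G (Ucm S)) (hcS : c ∉ S)
    (hG : ∀ z ∈ Uo, Integrable (fun t : ℝ => (((G t).im : ℝ) : ℂ) / ((t : ℂ) - z)) ∧
      G z = (1 / Real.pi : ℝ) * ∫ t : ℝ, (((G t).im : ℝ) : ℂ) / ((t : ℂ) - z))
    (h0 : ∀ t : ℝ, |t - c| < r → (G t).im = 0) :
    Integrable (fun t : ℝ => (G t).im / (t - c)) ∧
    (G (c : ℂ)).re = (1 / Real.pi) * ∫ t : ℝ, (G t).im / (t - c) := by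
  set Gi : ℝ → ℝ := fun t => (G t).im with hGi
  set zz : ℝ → ℂ := fun η => (c : ℂ) + (η : ℂ) * I with hzz
  have hzzim : ∀ η : ℝ, (zz η).im = η := by intro η; simp [hzz]
  have hzzU : ∀ η : ℝ, 0 < η → zz η ∈ Uo := by
    intro η hη
    show 0 < (zz η).im
    rw [hzzim]
    exact hη
  have hcU : ((c : ℝ) : ℂ) ∈ Ucm S := by
    refine ⟨by simp, ?_⟩
    intro s hs
    have hne : c ≠ s := by
      intro h
      rw [h] at hcS
      exact hcS hs
    exact_mod_cast hne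
  have hlim1 : Tendsto (fun η : ℝ => G (zz η)) (𝓝[>] 0) (𝓝 (G (c : ℂ))) := by
    have h1 : ContinuousWithinAt G (Ucm S) (c : ℂ) := hcont _ hcU
    have h2 : Tendsto zz (𝓝[>] 0) (𝓝[Ucm S] (c : ℂ)) := by
      rw [tendsto_nhdsWithin_iff]
      constructor
      · have h3 : Tendsto zz (𝓝 0) (𝓝 (zz 0)) := by
          apply Continuous.tendsto
          simp only [hzz]
          fun_prop
        have h4 : zz 0 = (c : ℂ) := by simp [hzz]
        rw [h4] at h3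
        exact h3.mono_left nhdsWithin_le_nhds
      · filter_upwards [self_mem_nhdsWithin] with η hη
        have hη' : (0 : ℝ) < η := hη
        refine ⟨by rw [hzzim]; exact hη'.le, fun s _ => ?_⟩
        exact ne_real_of_im (by rw [hzzim]; exact hη') s
    exact h1.tendsto.comp h2
  have hnorm : ∀ η : ℝ, ∀ t : ℝ, |t - c| ≤ ‖(t : ℂ) - zz η‖ := by
    intro η t
    have h1 : ((t : ℂ) - zz η).re = t - c := by simp [hzz]
    rw [← h1]
    exact Complex.abs_re_le_norm _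
  have hz1 : ∀ t : ℝ, ‖(t : ℂ) - zz 1‖ ≤ |t - c| + 1 := by
    intro t
    have h1 : (t : ℂ) - zz 1 = ((t - c : ℝ) : ℂ) - I := by
      simp [hzz]
      ring
    rw [h1]
    refine (norm_sub_le _ _).trans ?_
    rw [Complex.norm_real, Complex.norm_I, Real.norm_eq_abs]
  have hdom : ∀ (t : ℝ) (w : ℂ), r ≤ |t - c| → |t - c| ≤ ‖w‖ →
      ‖((Gi t : ℝ) : ℂ) / w‖ ≤ (1 + 1 / r) * ‖((Gi t : ℝ) : ℂ) / ((t : ℂ) - zz 1)‖ := by
    intro t w h0 hw
    have h1 : 0 < |t - c| := lt_of_lt_of_le hr0 h0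
    have h2 : 0 < ‖(t : ℂ) - zz 1‖ := lt_of_lt_of_le h1 (hnorm 1 t)
    rw [norm_div, norm_div]
    have h3 : ‖w‖⁻¹ ≤ (1 + 1 / r) * ‖(t : ℂ) - zz 1‖⁻¹ := by
      have h4 : ‖(t : ℂ) - zz 1‖ ≤ (1 + 1 / r) * |t - c| := by
        refine (hz1 t).trans ?_
        have : 1 ≤ 1 / r * |t - c| := by
          rw [one_div, inv_mul_eq_div, one_le_div hr0]
          exact h0
        linarith
      have h5 : ‖(t : ℂ) - zz 1‖ ≤ (1 + 1 / r) * ‖w‖ :=
        h4.trans (mul_le_mul_of_nonneg_left hw (by positivity))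
      have hw0 : 0 < ‖w‖ := lt_of_lt_of_le h1 hw
      rw [← div_eq_mul_inv, le_div_iff₀ h2, inv_mul_le_iff₀ hw0]
      linarith
    calc ‖((Gi t : ℝ) : ℂ)‖ / ‖w‖ = ‖((Gi t : ℝ) : ℂ)‖ * ‖w‖⁻¹ := div_eq_mul_inv _ _
      _ ≤ ‖((Gi t : ℝ) : ℂ)‖ * ((1 + 1 / r) * ‖(t : ℂ) - zz 1‖⁻¹) :=
          mul_le_mul_of_nonneg_left h3 (norm_nonneg _)
      _ = _ := by ring
  have hI1 : Integrable (fun t : ℝ => ((Gi t : ℝ) : ℂ) / ((t : ℂ) - zz 1)) := (hG _ (hzzU 1 one_pos)).1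
  have hGi0 : ∀ t : ℝ, ¬ (r ≤ |t - c|) → Gi t = 0 := fun t ht => h0 t (not_le.mp ht)
  have hlim2 : Tendsto (fun η : ℝ => ∫ t : ℝ, ((Gi t : ℝ) : ℂ) / ((t : ℂ) - zz η)) (𝓝[>] 0)
      (𝓝 (∫ t : ℝ, ((Gi t : ℝ) : ℂ) / ((t : ℂ) - (c : ℂ)))) := by
    apply tendsto_integral_filter_of_dominated_convergence
      (fun t => (1 + 1 / r) * ‖((Gi t : ℝ) : ℂ) / ((t : ℂ) - zz 1)‖)
    · filter_upwards [self_mem_nhdsWithin] with η hη
      exact (hG _ (hzzU η hη)).1.aestronglyMeasurable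
    · filter_upwards [self_mem_nhdsWithin] with η hη
      refine Eventually.of_forall (fun t => ?_)
      by_cases ht : r ≤ |t - c|
      · exact hdom t _ ht (hnorm η t)
      · rw [hGi0 t ht]
        simp
    · exact hI1.norm.const_mul _
    · refine Eventually.of_forall (fun t => ?_)
      by_cases ht : r ≤ |t - c|
      · have h1 : (t : ℂ) - (c : ℂ) ≠ 0 := by
          intro h
          have h3 : t - c = 0 := by exact_mod_cast h
          rw [h3, abs_zero] at ht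
          linarith
        have h3 : Tendsto (fun η : ℝ => (t : ℂ) - zz η) (𝓝[>] 0) (𝓝 ((t : ℂ) - (c : ℂ))) := by
          have h4 : Tendsto (fun η : ℝ => (t : ℂ) - zz η) (𝓝 0) (𝓝 ((t : ℂ) - zz 0)) := by
            apply Continuous.tendsto
            simp only [hzz]
            fun_prop
          have h5 : zz 0 = (c : ℂ) := by simp [hzz]
          rw [h5] at h4
          exact h4.mono_left nhdsWithin_le_nhds
        exact tendsto_const_nhds.div h3 h1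
      · rw [hGi0 t ht]
        simp
  have hGc : G (c : ℂ) = (1 / Real.pi : ℝ) * ∫ t : ℝ, ((Gi t : ℝ) : ℂ) / ((t : ℂ) - (c : ℂ)) := by
    refine tendsto_nhds_unique hlim1 ?_
    have h1 : Tendsto (fun η : ℝ => ((1 / Real.pi : ℝ) : ℂ) * ∫ t : ℝ, ((Gi t : ℝ) : ℂ) / ((t : ℂ) - zz η)) (𝓝[>] 0)
        (𝓝 (((1 / Real.pi : ℝ) : ℂ) * ∫ t : ℝ, ((Gi t : ℝ) : ℂ) / ((t : ℂ) - (c : ℂ)))) :=
      tendsto_const_nhds.mul hlim2
    refine h1.congr' ?_
    filter_upwards [self_mem_nhdsWithin] with η hη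
    exact (hG _ (hzzU η hη)).2.symm
  have hHc : ∀ t : ℝ, ((Gi t : ℝ) : ℂ) / ((t : ℂ) - (c : ℂ)) = ((Gi t / (t - c) : ℝ) : ℂ) := by
    intro t
    push_cast
    rfl
  have hne : ∀ t : ℝ, (t : ℂ) - zz 1 ≠ 0 := by
    intro t h
    have h1 : ((t : ℂ) - zz 1).im = 0 := by rw [h]; simp
    simp [hzz] at h1
  have hHintC : Integrable (fun t : ℝ => ((Gi t : ℝ) : ℂ) / ((t : ℂ) - (c : ℂ))) := by
    have h1 : (fun t : ℝ => ((Gi t : ℝ) : ℂ) / ((t : ℂ) - (c : ℂ))) =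
        fun t : ℝ => (((Gi t : ℝ) : ℂ) / ((t : ℂ) - zz 1)) * (((t : ℂ) - zz 1) / ((t : ℂ) - (c : ℂ))) := by
      funext t
      have := hne t
      field_simp
    refine Integrable.mono' (hI1.norm.const_mul (1 + 1 / r)) ?_ ?_
    · rw [h1]
      apply hI1.aestronglyMeasurable.mul
      apply Measurable.aestronglyMeasurable
      fun_prop
    · refine Eventually.of_forall (fun t => ?_)
      by_cases ht : r ≤ |t - c|
      · refine hdom t _ ht ?_
        rw [← Complex.ofReal_sub, Complex.norm_real, Real.norm_eq_abs]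
      · rw [hGi0 t ht]
        simp
  refine ⟨?_, ?_⟩
  · have h1 := hHintC.re
    refine h1.congr (Eventually.of_forall (fun t => ?_))
    show (((Gi t : ℝ) : ℂ) / ((t : ℂ) - (c : ℂ))).re = Gi t / (t - c)
    rw [hHc, Complex.ofReal_re]
  rw [hGc]
  have h1 : (∫ t : ℝ, ((Gi t : ℝ) : ℂ) / ((t : ℂ) - (c : ℂ))) = ((∫ t, Gi t / (t - c) : ℝ) : ℂ) := by
    rw [← integral_complex_ofReal]
    exact integral_congr_ae (Eventually.of_forall (fun t => hHc t))
  rw [h1, ← Complex.ofReal_mul, Complex.ofReal_re]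

theorem ae_ne1 (a : ℝ) : ∀ᵐ t : ℝ, t ≠ a := by
  rw [ae_iff]
  simp

theorem st_E4 (hA3 : ST_A3) (hA4 : ST_A4) (hP3 : ST_P3) : ST_E4 := by
  intro Hm Hp C cd _ e
  have hNe : e.N = Nf cd e.c := rfl
  refine ⟨?_, ?_, ?_⟩
  · -- (1)
    intro z hz
    obtain ⟨A, hA⟩ := GE_growth cd e.N e.c
    have h := hA3 (GE cd e.N e.c) {e.c} A (GE_cont cd e.N e.c) (GE_diff cd e.N e.c) hA z hz
    have hw : ∀ t : ℝ, (GE cd e.N e.c t).im = e.wt t := by
      intro t
      rw [Edge.wt]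
      split_ifs with ht
      · exact GE_im_right cd e.N e.c ht.le
      · exact GE_im_left cd e.N e.c (not_lt.mp ht)
    simp only [hw] at h
    exact h
  · -- (2)
    intro W hW
    obtain ⟨A, hA0, hA⟩ := FE_growth cd e.N e.c W hW
    obtain ⟨hint, hzero⟩ := hA4 (FE cd e.N e.c W) (SE e.c W) A (FE_cont cd e.N e.c W) (FE_diff cd e.N e.c W) hA
    set Fi : ℝ → ℝ := fun t => (FE cd e.N e.c W t).im with hFi
    have hFint : Integrable Fi := hint.im
    have hF0 : ∫ t, Fi t = 0 := by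
      have := integral_im hint
      have h2 : ∫ t : ℝ, (FE cd e.N e.c W t).im = (∫ t : ℝ, FE cd e.N e.c W t).im := this
      rw [hFi, h2, hzero]
      simp
    set h1 : ℝ → ℝ := fun t => e.wt t / W.q t with hh1
    have m1 : MeasurableSet (Ioo W.a W.b) := measurableSet_Ioo
    have e1 : ∀ᵐ t : ℝ, (Ioo W.a W.b)ᶜ.indicator Fi t = h1 t := by
      refine Eventually.of_forall (fun t => ?_)
      by_cases hWt : t ∈ Ioo W.a W.b
      · rw [indicator_of_notMem (by simpa using hWt)]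
        have h3 : W.q t = 0 := qr_in hWt
        simp [hh1, h3]
      · rw [indicator_of_mem (by simpa using hWt)]
        simp only [hFi, hh1]
        rw [Edge.wt]
        split_ifs with ht
        · exact FE_im_right cd e.N e.c W ht.le hWt
        · exact FE_im_left cd e.N e.c W (not_lt.mp ht) hWt
    have i1 : Integrable h1 := (hFint.indicator m1.compl).congr e1
    refine ⟨i1, ?_⟩
    have s1 : ∫ t, h1 t = ∫ t in (Ioo W.a W.b)ᶜ, Fi t := by
      rw [← integral_indicator m1.compl]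
      exact (integral_congr_ae e1).symm
    have s2 : (∫ t in Ioo W.a W.b, Fi t) + ∫ t in (Ioo W.a W.b)ᶜ, Fi t = 0 := by
      rw [integral_add_compl m1 hFint, hF0]
    have s3 : ∫ t in Ioo W.a W.b, Fi t = -(W.N - e.N) * (Real.pi * W.av (fun t => 1 / Real.sqrt (t - e.c))) := by
      rw [Gap.av, intervalIntegral.integral_of_le W.lt.le, integral_Ioc_eq_integral_Ioo]
      have h4 : Real.pi * (1 / Real.pi * ∫ t in Ioo W.a W.b, 1 / Real.sqrt (t - e.c) / Real.sqrt ((t - W.a) * (W.b - t))) =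
          ∫ t in Ioo W.a W.b, 1 / Real.sqrt (t - e.c) / Real.sqrt ((t - W.a) * (W.b - t)) := by
        have := Real.pi_ne_zero
        field_simp
      rw [h4, ← integral_const_mul]
      refine setIntegral_congr_fun m1 (fun t ht => ?_)
      simp only [hFi]
      rw [FE_im_W cd e.N e.c W (by linarith [ht.1]) ht, div_div, mul_one_div]
      congr 1
      ring
    have s4 : ∫ t, h1 t = (W.N - e.N) * (Real.pi * W.av (fun t => 1 / Real.sqrt (t - e.c))) := by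
      rw [s1]
      rw [s3] at s2
      linarith
    rw [s4]
    have := Real.pi_ne_zero
    field_simp
  · -- (3)
    intro W hW
    have hWlt := W.lt
    -- integrability of the first weight
    have i0 : Integrable (fun t => e.wt t / W.q t) := by
      obtain ⟨A, hA0, hA⟩ := FE_growth cd e.N e.c W hW
      obtain ⟨hint, hzero⟩ := hA4 (FE cd e.N e.c W) (SE e.c W) A (FE_cont cd e.N e.c W) (FE_diff cd e.N e.c W) hA
      have hFint : Integrable (fun t : ℝ => (FE cd e.N e.c W t).im) := hint.im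
      have m1 : MeasurableSet (Ioo W.a W.b) := measurableSet_Ioo
      refine (hFint.indicator m1.compl).congr (Eventually.of_forall (fun t => ?_))
      by_cases hWt : t ∈ Ioo W.a W.b
      · rw [indicator_of_notMem (by simpa using hWt)]
        have h3 : W.q t = 0 := qr_in hWt
        simp [h3]
      · rw [indicator_of_mem (by simpa using hWt)]
        simp only
        rw [Edge.wt]
        split_ifs with ht
        · exact FE_im_right cd e.N e.c W ht.le hWt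
        · exact FE_im_left cd e.N e.c W (not_lt.mp ht) hWt
    set c := W.c with hc
    have hcW : c ∈ Ioo W.a W.b := by
      rw [hc, Gap.c]
      constructor <;> linarith
    set r := (W.b - W.a) / 2 with hr
    have hr0 : 0 < r := by rw [hr]; linarith
    have hout : ∀ t : ℝ, t ∉ Ioo W.a W.b → r ≤ |t - c| := by
      intro t ht
      rcases le_or_gt t W.a with h | h
      · have : t - c ≤ -r := by rw [hc, Gap.c, hr]; linarith
        rw [le_abs]
        right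
        linarith
      · have h' : W.b ≤ t := by
          by_contra hcon
          exact ht ⟨h, not_le.mp hcon⟩
        have : r ≤ t - c := by rw [hc, Gap.c, hr]; linarith
        exact this.trans (le_abs_self _)
    have hin : ∀ t : ℝ, |t - c| < r → t ∈ Ioo W.a W.b := by
      intro t ht
      by_contra hcon
      have := hout t hcon
      linarith
    -- first weight divided by t - c
    have i1 : Integrable (fun t => e.wt t / (W.q t * (t - c))) := by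
      have h1 : (fun t => e.wt t / (W.q t * (t - c))) = fun t => (e.wt t / W.q t) * (t - c)⁻¹ := by
        funext t
        rw [div_mul_eq_div_div, div_eq_mul_inv]
      rw [h1]
      refine Integrable.mono' (i0.norm.mul_const (1 / r)) ?_ ?_
      · apply i0.aestronglyMeasurable.mul
        apply Measurable.aestronglyMeasurable
        fun_prop
      · refine Eventually.of_forall (fun t => ?_)
        rw [norm_mul]
        by_cases ht : t ∈ Ioo W.a W.b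
        · have h3 : W.q t = 0 := qr_in ht
          rw [h3]
          simp
        · apply mul_le_mul_of_nonneg_left _ (norm_nonneg _)
          rw [norm_inv, Real.norm_eq_abs, one_div]
          exact inv_anti₀ hr0 (hout t ht)
    refine ⟨i1, ?_⟩
    obtain ⟨A, hA0, hA⟩ := FE_growth cd W.N e.c W hW
    have hA' : ∀ z ∈ Ucm (SE e.c W), ‖FE cd W.N e.c W z‖ ≤
        A * (1 + Real.log (1 + ‖z‖)) * (1 + ‖z‖) ^ (-(1 / 2) : ℝ) * wS (SE e.c W) z := by
      intro z hz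
      refine (hA z hz).trans ?_
      have h1 : 0 ≤ Real.log (1 + ‖z‖) := Real.log_nonneg (by linarith [norm_nonneg z])
      have h2 : (1 + ‖z‖) ^ (-(3 / 2) : ℝ) ≤ (1 + ‖z‖) ^ (-(1 / 2) : ℝ) :=
        Real.rpow_le_rpow_of_exponent_le (by linarith [norm_nonneg z]) (by norm_num)
      have h3 : 0 ≤ wS (SE e.c W) z := by
        rw [wS]
        have : 0 ≤ ∑ s ∈ SE e.c W, ‖z - ((s : ℝ) : ℂ)‖ ^ (-(1 / 2) : ℝ) :=
          Finset.sum_nonneg (fun s _ => Real.rpow_nonneg (norm_nonneg _) _)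
        linarith
      apply mul_le_mul_of_nonneg_right _ h3
      exact mul_le_mul_of_nonneg_left h2 (by positivity)
    have hG := hA3 (FE cd W.N e.c W) (SE e.c W) A (FE_cont cd W.N e.c W) (FE_diff cd W.N e.c W) hA'
    have hcS : c ∉ SE e.c W := by
      simp only [SE, Finset.mem_insert, Finset.mem_singleton, not_or]
      refine ⟨?_, hcW.1.ne', hcW.2.ne⟩
      exact (by linarith [hcW.1] : e.c < c).ne'
    obtain ⟨hH, hre⟩ := lim_pt (FE cd W.N e.c W) (SE e.c W) c r hr0 (FE_cont cd W.N e.c W) hcS hG (by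
      intro t ht
      rw [FE_im_W cd W.N e.c W (by linarith [(hin t ht).1]) (hin t ht), sub_self, zero_div])
    have hk : (FE cd W.N e.c W (c : ℂ)).re = W.kk / Real.sqrt (c - e.c) := by
      rw [FE_re_W cd W.N e.c W (by linarith [hcW.1]) hcW]
      have h7 := (((hP3 Hm Hp C cd W.a W.b W.N hWlt (fun t ht => W.lab t ht)).1) c hcW).2.2
      rw [h7, Gap.kk]
      have h8 : 0 < Real.sqrt ((c - W.a) * (W.b - c)) :=
        Real.sqrt_pos.mpr (mul_pos (by linarith [hcW.1]) (by linarith [hcW.2]))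
      have h9 : 0 < Real.sqrt (c - e.c) := Real.sqrt_pos.mpr (by linarith [hcW.1])
      rw [← hc]
      field_simp
    -- splitting of the boundary function
    set h2 : ℝ → ℝ := fun t => 1 / (Real.sqrt (e.c - t) * |W.q t| * |t - c|) with hh2
    have hsplit : ∀ᵐ t : ℝ, (FE cd W.N e.c W t).im / (t - c) =
        e.wt t / (W.q t * (t - c)) + (Iio e.c).indicator (fun t => (W.N - e.N) * h2 t) t := by
      filter_upwards [ae_ne1 e.c] with t hte
      by_cases hWt : t ∈ Ioo W.a W.b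
      · rw [FE_im_W cd W.N e.c W (by linarith [hWt.1]) hWt, sub_self, zero_div, zero_div]
        have h3 : W.q t = 0 := qr_in hWt
        rw [h3, indicator_of_notMem]
        · simp
        · simp only [mem_Iio, not_lt]
          linarith [hWt.1]
      · rcases lt_or_gt_of_ne hte with h | h
        · -- t < e.c
          rw [FE_im_left cd W.N e.c W h.le hWt, indicator_of_mem (show t ∈ Iio e.c from h), Edge.wt, if_neg (not_lt.mpr h.le)]
          have hq : W.q t < 0 := by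
            have h10 : W.q t ≠ 0 := qr_ne_zero (fun hh => by linarith [hh.1]) hWlt
            have h11 : W.q t ≤ 0 := by
              rw [Gap.q, qr, if_neg (by linarith)]
              linarith [Real.sqrt_nonneg ((t - W.a) * (t - W.b))]
            exact lt_of_le_of_ne h11 h10
          have htc : t - c < 0 := by linarith [hcW.1]
          have hs : 0 < Real.sqrt (e.c - t) := Real.sqrt_pos.mpr (by linarith)
          simp only [hh2]
          rw [abs_of_neg hq, abs_of_neg htc]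
          have n1 : W.q t ≠ 0 := hq.ne
          have n2 : t - c ≠ 0 := htc.ne
          have n3 : Real.sqrt (e.c - t) ≠ 0 := hs.ne'
          have n4 : Real.sqrt (e.c - t) * -W.q t * -(t - c) = Real.sqrt (e.c - t) * W.q t * (t - c) := by ring
          rw [n4]
          field_simp
          ring
        · -- e.c < t
          rw [FE_im_right cd W.N e.c W h.le hWt, indicator_of_notMem (by simpa using h.le), Edge.wt, if_pos h, add_zero,
            div_div]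
    have hsum : ∫ t : ℝ, (FE cd W.N e.c W t).im / (t - c) =
        (∫ t : ℝ, e.wt t / (W.q t * (t - c))) + (W.N - e.N) * ∫ t in Iio e.c, h2 t := by
      rw [integral_congr_ae hsplit, ← integral_const_mul, ← integral_indicator measurableSet_Iio]
      apply integral_add i1
      have h5 : Integrable (fun t : ℝ => (FE cd W.N e.c W t).im / (t - c) - e.wt t / (W.q t * (t - c))) := hH.sub i1
      refine h5.congr ?_
      filter_upwards [hsplit] with t ht
      rw [ht]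
      ring
    rw [hk, hsum] at hre
    have h9 : 0 < Real.sqrt (c - e.c) := Real.sqrt_pos.mpr (by linarith [hcW.1])
    have h10 : W.kk = Real.sqrt (c - e.c) * (W.kk / Real.sqrt (c - e.c)) := by field_simp
    rw [h10, hre]
    congr 1
    simp only [hh2]
    ring

end

end Pool.Agent.Helper80.CVE4
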